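import Pool.Agent.Helper99.QR.CycSwap

/-!
# Row A03: planar pairs
-/

namespace QR

noncomputable section

open Filter Topology

variable {S : Type}

theorem rtg_pow (c ψ : Equiv.Perm S) (n : ℕ) (z : S) :
    Relation.ReflTransGen (fun a b => b = c a ∨ b = ψ a) z ((c ^ n) z) ∧
    Relation.ReflTransGen (fun a b => b = c a ∨ b = ψ a) z ((ψ ^ n) z) := by
  induction n with
  | zero => exact ⟨Relation.ReflTransGen.refl, Relation.ReflTransGen.refl⟩
  | succ n ih =>
    refine ⟨ih.1.tail (Or.inl ?_), ih.2.tail (Or.inr ?_)⟩ <;>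
      rw [pow_succ', Equiv.Perm.mul_apply]

theorem rtg_symm [Finite S] (c ψ : Equiv.Perm S) {z w : S}
    (h : Relation.ReflTransGen (fun a b => b = c a ∨ b = ψ a) z w) :
    Relation.ReflTransGen (fun a b => b = c a ∨ b = ψ a) w z := by
  induction h with
  | refl => exact Relation.ReflTransGen.refl
  | tail _ h1 ih =>
    refine Relation.ReflTransGen.trans ?_ ih
    rename_i b d _
    rcases h1 with rfl | rfl
    · have h2 : c.SameCycle (c b) b := Equiv.Perm.SameCycle.symm ⟨1, by simp⟩
      obtain ⟨n, hn⟩ := sc_exists_pow h2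
      have h3 := (rtg_pow c ψ n (c b)).1
      rwa [hn] at h3
    · have h2 : ψ.SameCycle (ψ b) b := Equiv.Perm.SameCycle.symm ⟨1, by simp⟩
      obtain ⟨n, hn⟩ := sc_exists_pow h2
      have h3 := (rtg_pow c ψ n (ψ b)).2
      rwa [hn] at h3

theorem st_A03 (h2 : ST_A02) : ST_A03 := by
  classical
  intro S _ c ψ hψ hcard x
  have hex : ∃ k : ℕ, 1 ≤ k ∧ c.SameCycle x ((ψ ^ k) x) := by
    refine ⟨orderOf ψ, orderOf_pos ψ, ?_⟩
    rw [pow_orderOf_eq_one]
    exact Equiv.Perm.SameCycle.refl _ _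
  set k := Nat.find hex with hk
  have hk1 : 1 ≤ k := (Nat.find_spec hex).1
  have hk2 : c.SameCycle x ((ψ ^ k) x) := (Nat.find_spec hex).2
  have hmin : ∀ j, 1 ≤ j → j < k → ¬ c.SameCycle x ((ψ ^ j) x) := fun j h1 h3 h4 =>
    Nat.find_min hex h3 ⟨h1, h4⟩
  refine ⟨k, hk1, ?_, hmin⟩
  by_cases hy : (ψ ^ k) x = x
  · rw [hy]
    obtain ⟨i, hi⟩ := sc_exists_pow (hψ x (c x))
    have hpk : ∀ q : ℕ, (ψ ^ (k * q)) x = x := by
      intro q
      induction q with
      | zero => simp
      | succ q ih => rw [Nat.mul_succ, pow_add, Equiv.Perm.mul_apply, hy, ih]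
    have hi2 : (ψ ^ (i % k)) x = c x := by
      rw [← hi]
      conv_rhs => rw [← Nat.mod_add_div i k, pow_add, Equiv.Perm.mul_apply, hpk]
    by_cases h0 : i % k = 0
    · rw [h0] at hi2
      simpa using hi2.symm
    · exfalso
      refine hmin (i % k) (by omega) (Nat.mod_lt _ (by omega)) ?_
      rw [hi2]
      exact ⟨1, by simp⟩
  · set y := (ψ ^ k) x with hyd
    have hne : x ≠ y := fun h => hy h.symm
    have hcx : c x ≠ x := by
      intro h
      have h5 : ∀ n : ℕ, (c ^ n) x = x := by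
        intro n
        induction n with
        | zero => simp
        | succ n ih => rw [pow_succ', Equiv.Perm.mul_apply, ih, h]
      obtain ⟨n, hn⟩ := sc_exists_pow hk2
      exact hne ((h5 n).symm.trans hn)
    -- the two new permutations
    set c1 := Equiv.swap x y * c with hc1
    set ψ1 := Equiv.swap x y * ψ with hψ1
    have e1 : Nat.card (Cyc c1) = Nat.card (Cyc c) + 1 := card_cyc_swap c hne hk2
    have e2 : Nat.card (Cyc ψ1) = Nat.card (Cyc ψ) + 1 := card_cyc_swap ψ hne (hψ x y)
    have e3 : c1⁻¹ * ψ1 = c⁻¹ * ψ := by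
      rw [hc1, hψ1, mul_inv_rev, Equiv.swap_inv, mul_assoc, ← mul_assoc (Equiv.swap x y),
        Equiv.swap_mul_self, one_mul]
    have e4 : 1 ≤ Nat.card (Cyc ψ) := by
      have : Nonempty (Cyc ψ) := ⟨Quotient.mk _ x⟩
      have := Fintype.ofFinite S
      exact Nat.card_pos
    have hmin' : ∀ i, 1 ≤ i → i < k → (ψ ^ i) x ≠ y := fun i h1 h3 h4 =>
      hmin i h1 h3 (by rw [h4]; exact hk2)
    have hkey : ψ1.SameCycle x (c1 x) := by
      by_contra hcon
      have hy1 : ψ1.SameCycle y (c1 x) := (sw_or ψ (hψ x (c1 x))).resolve_left hcon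
      have htr : ∀ u v : S, Relation.ReflTransGen (fun a b => b = c1 a ∨ b = ψ1 a) u v := by
        have g : ∀ {z w : S}, ψ1.SameCycle z w →
            Relation.ReflTransGen (fun a b => b = c1 a ∨ b = ψ1 a) z w := by
          intro z w h
          obtain ⟨n, rfl⟩ := sc_exists_pow h
          exact (rtg_pow c1 ψ1 n z).2
        have gx : ∀ z, Relation.ReflTransGen (fun a b => b = c1 a ∨ b = ψ1 a) x z := by
          intro z
          rcases sw_or (y := y) ψ (hψ x z) with h | h
          · exact g h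
          · refine Relation.ReflTransGen.trans ?_ (g h)
            exact Relation.ReflTransGen.trans (Relation.ReflTransGen.single (Or.inl rfl))
              (g hy1.symm)
        intro u v
        exact (rtg_symm c1 ψ1 (gx u)).trans (gx v)
      have h5 := h2 S c1 ψ1 ⟨x⟩ htr
      rw [e1, e2, e3] at h5
      omega
    obtain ⟨i, hi, hi2⟩ := sw_arc ψ hne k hk1 rfl hmin' hkey
    by_contra hcy
    have e5 : c1 x = c x := by
      rw [hc1, Equiv.Perm.mul_apply, Equiv.swap_apply_of_ne_of_ne hcx hcy]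
    rw [e5] at hi2
    by_cases h0 : i = 0
    · subst h0
      exact hcx (by simpa using hi2)
    · refine hmin i (by omega) hi ?_
      rw [← hi2]
      exact ⟨1, by simp⟩

end

end QR
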