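import Pool.Agent.Helper99.QR.A07b

/-!
# Row A07: the core is uniform given its type
-/

namespace QR

noncomputable section

open Filter Topology

theorem isRet_unique {S : Type} {σ : Equiv.Perm S} {B : Set S} {ρ ρ' : Equiv.Perm S}
    (h : IsRet σ B ρ) (h' : IsRet σ B ρ') : ρ = ρ' := by
  ext x
  by_cases hx : x ∈ B
  · obtain ⟨hB, k, hk, hk1, hk2⟩ := h.2 x hx
    obtain ⟨hB', k', hk', hk1', hk2'⟩ := h'.2 x hx
    have e : k = k' := by
      rcases lt_trichotomy k k' with hlt | heq | hgt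
      · exact absurd (hk1 ▸ hB) (hk2' k hk hlt)
      · exact heq
      · exact absurd (hk1' ▸ hB') (hk2 k' hk' hgt)
    rw [hk1, hk1', e]
  · rw [h.1 x hx, h'.1 x hx]

instance finite_RMap {D : Type} [Finite D] : Finite (RMap D) := by
  refine Finite.of_injective (fun m : RMap D => (m.rot, m.opp)) ?_
  intro m m' h
  exact RMap.ext (congrArg Prod.fst h) (congrArg Prod.snd h)

theorem A07_le (hA4 : ST_A04) (hA5 : ST_A05) (hA6 : ST_A06) (N P n p : ℕ) (hP : 1 ≤ P)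
    (hp : 1 ≤ p) (y y' : RMap (Fin (4 * n + 2 * p)) × Fin (4 * n + 2 * p)) (hy : y ∈ SQ n p)
    (hy' : y' ∈ SQ n p) :
    Nat.card {z : (RMap (Fin (4 * N + 2 * P)) × Fin (4 * N + 2 * P)) ×
        (Fin (4 * n + 2 * p) → Fin (4 * N + 2 * P)) // z.1 ∈ GQ N P ∧
          IsCore y.1 y.2 z.1.1 z.1.2 z.2} ≤
    Nat.card {z : (RMap (Fin (4 * N + 2 * P)) × Fin (4 * N + 2 * P)) ×
        (Fin (4 * n + 2 * p) → Fin (4 * N + 2 * P)) // z.1 ∈ GQ N P ∧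
          IsCore y'.1 y'.2 z.1.1 z.1.2 z.2} := by
  classical
  obtain ⟨θ, hθ⟩ := exists_theta y.1.face y'.1.face y.2 y'.2 (2 * p) hy.1.outer hy'.1.outer
  have hex : ∀ z : {z : (RMap (Fin (4 * N + 2 * P)) × Fin (4 * N + 2 * P)) ×
        (Fin (4 * n + 2 * p) → Fin (4 * N + 2 * P)) // z.1 ∈ GQ N P ∧
          IsCore y.1 y.2 z.1.1 z.1.2 z.2},
      ∃ w : {z : (RMap (Fin (4 * N + 2 * P)) × Fin (4 * N + 2 * P)) ×
        (Fin (4 * n + 2 * p) → Fin (4 * N + 2 * P)) // z.1 ∈ GQ N P ∧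
          IsCore y'.1 y'.2 z.1.1 z.1.2 z.2},
      w.1.2 = z.1.2 ∘ θ ∧ w.1.1.2 = z.1.1.2 ∧ ∃ ρ : Equiv.Perm (Fin (4 * N + 2 * P)),
        IsRet w.1.1.1.rot (outer w.1.1.1 w.1.1.2) ρ ∧
        (∀ d, z.1.2 (y.1.rot d) = (cut z.1.1.1 ρ).rot (z.1.2 d)) ∧
        (∀ d, z.1.2 (y.1.opp d) = z.1.1.1.opp (z.1.2 d)) ∧
        (∀ x ∉ Set.range w.1.2, (cut w.1.1.1 ρ).rot x = (cut z.1.1.1 ρ).rot x) ∧
        (∀ x ∉ Set.range w.1.2, w.1.1.1.opp x = z.1.1.1.opp x) := by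
    rintro ⟨⟨⟨m, o⟩, j⟩, hz1, ρ, hρ, hj, h1, h2, ho, hc⟩
    simp only at hρ hj h1 h2 ho hc
    have hr : Set.range (j ∘ θ) = Set.range j := θ.surjective.range_comp j
    have hface : ∀ i : ℕ, (j ∘ θ) ((y'.1.face ^ i) y'.2) = j ((y.1.face ^ i) y.2) := by
      intro i
      rw [Function.comp_apply, hθ]
    obtain ⟨mn, g1, g2, g3, g4, g5, g6⟩ := replace_core hA4 hA5 hA6 m o N P n p hP hp hz1 ρ hρ
      y.1 y'.1 y.2 y'.2 hy.1 hy'.1 hy'.2 j (j ∘ θ) hj (hj.comp θ.injective) hr h1 h2 ho hface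
    have ho' : (j ∘ θ) y'.2 = o := by
      have := hface 0
      simp only [pow_zero, Equiv.Perm.one_apply] at this
      rw [this, ho]
    exact ⟨⟨⟨⟨mn, o⟩, j ∘ θ⟩, g1, ρ, g2, hj.comp θ.injective, g3, g4, ho', hy'.1.planar.2.1⟩, rfl,
      rfl, ρ, g2, h1, h2, g5, g6⟩
  choose G hG1 hG2 hG3 using hex
  refine Nat.card_le_card_of_injective G ?_
  intro z1 z2 hz
  obtain ⟨ρ1, a1, a2, a3, a4, a5⟩ := hG3 z1
  obtain ⟨ρ2, b1, b2, b3, b4, b5⟩ := hG3 z2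
  rw [← hz] at b1 b4 b5
  obtain rfl : ρ1 = ρ2 := isRet_unique a1 b1
  have ej : z1.1.2 = z2.1.2 := by
    have h1 := hG1 z1
    rw [hz, hG1 z2] at h1
    funext d
    have h2 := congrFun h1 (θ.symm d)
    simp only [Function.comp_apply, Equiv.apply_symm_apply] at h2
    exact h2.symm
  have eo : z1.1.1.2 = z2.1.1.2 := by
    rw [← hG2 z1, hz, hG2 z2]
  have hr : Set.range (G z1).1.2 = Set.range z1.1.2 := by
    rw [hG1 z1]
    exact θ.surjective.range_comp _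
  have erot : z1.1.1.1.rot = z2.1.1.1.rot := by
    ext x
    have h3 : (cut z1.1.1.1 ρ1).rot x = (cut z2.1.1.1 ρ1).rot x := by
      by_cases hx : x ∈ Set.range (G z1).1.2
      · rw [hr] at hx
        obtain ⟨d, rfl⟩ := hx
        rw [← a2, ej, b2]
      · rw [← a4 x hx, b4 x hx]
    have h4 : ρ1⁻¹ (z1.1.1.1.rot x) = ρ1⁻¹ (z2.1.1.1.rot x) := h3
    rw [ρ1⁻¹.injective h4]
  have eopp : z1.1.1.1.opp = z2.1.1.1.opp := by
    ext x
    by_cases hx : x ∈ Set.range (G z1).1.2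
    · rw [hr] at hx
      obtain ⟨d, rfl⟩ := hx
      rw [← a3, ej, b3]
    · rw [← a5 x hx, b5 x hx]
  apply Subtype.ext
  apply Prod.ext
  · exact Prod.ext (RMap.ext erot eopp) eo
  · exact ej

theorem st_A07 (hA4 : ST_A04) (hA5 : ST_A05) (hA6 : ST_A06) : ST_A07 := by
  intro N P n p hP hp y hy y' hy'
  exact le_antisymm (A07_le hA4 hA5 hA6 N P n p hP hp y y' hy hy')
    (A07_le hA4 hA5 hA6 N P n p hP hp y' y hy' hy)

end

end QR
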