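import Pool.Agent.Helper98.QR.StmtsC

/-!
# Row C05: minimality of the tree series
-/

namespace QR

noncomputable section

open Filter Topology PowerSeries

/-- coefficient of the tree series -/
def tsc (ω θ : ℤ → ℝ) (l : ℤ) (n : ℕ) : ℝ := coeff n (TS ω θ l)

/-- the neighbour series -/
def nbc (ω θ : ℤ → ℝ) (l : ℤ) (n : ℕ) : ℝ :=
  θ (l - 1) * tsc ω θ (l - 1) n + θ l * tsc ω θ l n + θ (l + 1) * tsc ω θ (l + 1) n

theorem tsc_zero (h2 : ST_C02) (ω θ : ℤ → ℝ) (l : ℤ) : tsc ω θ l 0 = ω l := by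
  unfold tsc
  rw [h2]
  simp [PowerSeries.coeff_zero_eq_constantCoeff]

theorem tsc_succ (h2 : ST_C02) (ω θ : ℤ → ℝ) (l : ℤ) (n : ℕ) : tsc ω θ l (n + 1) =
    ω l * (1 / 12 * ∑ p ∈ Finset.HasAntidiagonal.antidiagonal n, nbc ω θ l p.1 * tsc ω θ l p.2) := by
  unfold tsc
  conv_lhs => rw [h2]
  rw [PowerSeries.coeff_C_mul, map_add]
  have h1 : coeff (n + 1) (1 : PowerSeries ℝ) = 0 := by
    rw [PowerSeries.coeff_one]; simp
  rw [h1, zero_add, mul_assoc (C (1 / 12 : ℝ) * X), mul_assoc (C (1 / 12 : ℝ)) X,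
    PowerSeries.coeff_C_mul, PowerSeries.coeff_succ_X_mul, PowerSeries.coeff_mul]
  congr 2
  apply Finset.sum_congr rfl
  intro p _
  unfold nbc tsc
  simp [PowerSeries.coeff_C_mul, map_add]

theorem tsc_nonneg (h2 : ST_C02) (ω θ : ℤ → ℝ) (hω : ∀ l, 0 ≤ ω l) (hθ : ∀ l, 0 ≤ θ l) :
    ∀ (n : ℕ) (l : ℤ), 0 ≤ tsc ω θ l n := by
  intro n
  induction n using Nat.strong_induction_on with
  | _ n ih =>
    intro l
    cases n with
    | zero => rw [tsc_zero h2]; exact hω l
    | succ n =>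
      rw [tsc_succ h2]
      refine mul_nonneg (hω l) (mul_nonneg (by norm_num) (Finset.sum_nonneg ?_))
      intro p hp
      have hp' := Finset.HasAntidiagonal.mem_antidiagonal.1 hp
      have h1 : p.1 < n + 1 := by omega
      have h3 : p.2 < n + 1 := by omega
      refine mul_nonneg ?_ (ih p.2 h3 l)
      unfold nbc
      have := mul_nonneg (hθ (l - 1)) (ih p.1 h1 (l - 1))
      have := mul_nonneg (hθ l) (ih p.1 h1 l)
      have := mul_nonneg (hθ (l + 1)) (ih p.1 h1 (l + 1))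
      linarith

theorem sum_antidiag_le (a b : ℕ → ℝ) (ha : ∀ n, 0 ≤ a n) (hb : ∀ n, 0 ≤ b n) (n : ℕ) :
    ∑ k ∈ Finset.range n, ∑ p ∈ Finset.HasAntidiagonal.antidiagonal k, a p.1 * b p.2 ≤
      (∑ i ∈ Finset.range n, a i) * ∑ j ∈ Finset.range n, b j := by
  rw [Finset.sum_mul_sum, ← Finset.sum_product', Finset.sum_sigma']
  refine le_trans (le_of_eq (Finset.sum_bij
    (t := (Finset.range n ×ˢ Finset.range n).filter (fun q => q.1 + q.2 < n))
    (g := fun q => a q.1 * b q.2) (fun x _ => x.2) ?_ ?_ ?_ ?_)) ?_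
  · rintro ⟨k, p⟩ h
    simp only [Finset.mem_sigma, Finset.mem_range, Finset.HasAntidiagonal.mem_antidiagonal] at h
    simp only [Finset.mem_filter, Finset.mem_product, Finset.mem_range]
    omega
  · rintro ⟨k, p⟩ h ⟨k', p'⟩ h' hh
    simp only [Finset.mem_sigma, Finset.mem_range, Finset.HasAntidiagonal.mem_antidiagonal] at h h'
    simp only at hh
    subst hh
    have : k = k' := by omega
    subst this
    rfl
  · rintro ⟨i, j⟩ h
    simp only [Finset.mem_filter, Finset.mem_product, Finset.mem_range] at h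
    exact ⟨⟨i + j, (i, j)⟩, by simp [Finset.mem_sigma]; exact h.2, rfl⟩
  · intro x _
    rfl
  · apply Finset.sum_le_sum_of_subset_of_nonneg (Finset.filter_subset _ _)
    intro q _ _
    exact mul_nonneg (ha _) (hb _)

/-- partial sums of the tree series are below every supersolution -/
theorem tsc_partial (h2 : ST_C02) (ω θ U : ℤ → ℝ) (hω : ∀ l, 0 ≤ ω l) (hθ : ∀ l, 0 ≤ θ l)
    (h0 : ∀ l < 1, θ l = 0) (hU : ∀ l, 0 ≤ U l)
    (hs : ∀ l, 1 ≤ l → ω l * (1 + 1 / 12 * (θ (l - 1) * U (l - 1) + θ l * U l +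
      θ (l + 1) * U (l + 1)) * U l) ≤ U l) :
    ∀ (n : ℕ) (l : ℤ), 1 ≤ l → ∑ k ∈ Finset.range n, tsc ω θ l k ≤ U l := by
  intro n
  induction n with
  | zero => intro l _; simpa using hU l
  | succ n ih =>
    intro l hl
    have hnn := tsc_nonneg h2 ω θ hω hθ
    have hnb : ∀ n, 0 ≤ nbc ω θ l n := by
      intro n
      unfold nbc
      have := mul_nonneg (hθ (l - 1)) (hnn n (l - 1))
      have := mul_nonneg (hθ l) (hnn n l)
      have := mul_nonneg (hθ (l + 1)) (hnn n (l + 1))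
      linarith
    rw [Finset.sum_range_succ', tsc_zero h2]
    have e1 : ∑ k ∈ Finset.range n, tsc ω θ l (k + 1) = ω l * (1 / 12 *
        ∑ k ∈ Finset.range n, ∑ p ∈ Finset.HasAntidiagonal.antidiagonal k, nbc ω θ l p.1 * tsc ω θ l p.2) := by
      rw [Finset.mul_sum, Finset.mul_sum]
      exact Finset.sum_congr rfl (fun k _ => tsc_succ h2 ω θ l k)
    have e2 := sum_antidiag_le _ _ hnb (fun k => hnn k l) n
    have e3 : ∑ i ∈ Finset.range n, nbc ω θ l i ≤
        θ (l - 1) * U (l - 1) + θ l * U l + θ (l + 1) * U (l + 1) := by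
      unfold nbc
      rw [Finset.sum_add_distrib, Finset.sum_add_distrib, ← Finset.mul_sum, ← Finset.mul_sum,
        ← Finset.mul_sum]
      have key : ∀ x : ℤ, θ x * ∑ i ∈ Finset.range n, tsc ω θ x i ≤ θ x * U x := by
        intro x
        by_cases hx : x < 1
        · rw [h0 x hx]; simp
        · exact mul_le_mul_of_nonneg_left (ih x (not_lt.1 hx)) (hθ x)
      exact add_le_add (add_le_add (key _) (key _)) (key _)
    have e4 : (∑ i ∈ Finset.range n, nbc ω θ l i) * ∑ j ∈ Finset.range n, tsc ω θ l j ≤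
        (θ (l - 1) * U (l - 1) + θ l * U l + θ (l + 1) * U (l + 1)) * U l := by
      refine mul_le_mul e3 (ih l hl) (Finset.sum_nonneg fun k _ => hnn k l) ?_
      exact le_trans (Finset.sum_nonneg fun k _ => hnb k) e3
    refine le_trans ?_ (hs l hl)
    rw [e1]
    have e5 := le_trans e2 e4
    have e6 := mul_le_mul_of_nonneg_left e5 (hω l)
    nlinarith [e6]

theorem st_C05 (_h1 : ST_C01) (h2 : ST_C02) : ST_C05 := by
  intro ω θ U hω hθ h0 hU hs l hl
  have hnn := tsc_nonneg h2 ω θ hω hθ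
  have hp := tsc_partial h2 ω θ U hω hθ h0 hU hs
  have hsum : Summable (fun n => coeff n (TS ω θ l)) :=
    summable_of_sum_range_le (f := fun n => coeff n (TS ω θ l)) (c := U l)
      (fun n => hnn n l) (fun n => hp n l hl)
  refine ⟨⟨fun n => hnn n l, hsum⟩, ?_⟩
  exact hsum.tsum_le_of_sum_range_le (fun n => hp n l hl)

end

end QR
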