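import Pool.Agent.Helper98.QR.StmtsC

/-!
# Row C10: the positive trees
-/

namespace QR

noncomputable section

open Filter Topology PowerSeries

theorem coeff_TS (h1 : ST_C01) (ω θ : ℤ → ℝ) (l : ℤ) (n : ℕ) : coeff n (TS ω θ l) =
    (1 / 12 : ℝ) ^ n * ∑ t ∈ (h1.1 n).toFinset, t.W ω θ l := by
  unfold TS
  rw [PowerSeries.coeff_mk]
  congr 1
  exact finsum_mem_eq_finite_toFinset_sum (fun t : LT => t.W ω θ l) (h1.1 n)

theorem coeff_TS_le (h1 : ST_C01) (ω θ ω' θ' : ℤ → ℝ) (l l' : ℤ)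
    (h : ∀ t : LT, t.W ω θ l ≤ t.W ω' θ' l') (n : ℕ) :
    coeff n (TS ω θ l) ≤ coeff n (TS ω' θ' l') := by
  rw [coeff_TS h1, coeff_TS h1]
  exact mul_le_mul_of_nonneg_left (Finset.sum_le_sum fun t _ => h t) (by positivity)

theorem coeff_TS_nonneg (h1 : ST_C01) (ω θ : ℤ → ℝ) (l : ℤ)
    (h : ∀ t : LT, 0 ≤ t.W ω θ l) (n : ℕ) : 0 ≤ coeff n (TS ω θ l) := by
  rw [coeff_TS h1]
  exact mul_nonneg (by positivity) (Finset.sum_nonneg fun t _ => h t)

theorem pos_nonneg (h4 : ST_C04) (t : LT) (l : ℤ) : 0 ≤ t.W one pos l := by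
  classical
  rw [h4.1]
  split_ifs <;> norm_num

theorem pos_mono (h4 : ST_C04) (t : LT) (l : ℤ) : t.W one pos (l - 1) ≤ t.W one pos l := by
  classical
  rw [h4.1, h4.1]
  by_cases h : t.ge 1 (l - 1)
  · have h' := (h4.2.2.2.1 t (l - 1) 1).2 h
    rw [sub_add_cancel] at h'
    have h'' := h4.2.2.2.2.1 t l 1 h'
    rw [if_pos h, if_pos h'']
  · rw [if_neg h]
    split_ifs <;> norm_num

theorem Gf_zero (l : ℕ) : Gf 0 l = Aw l := by
  have hQ : ∀ n : ℕ, Qf 0 n = (n + 1) * (n + 2) / 2 ∧ Qf 0 (n + 1) = (n + 2) * (n + 3) / 2 := by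
    intro n
    induction n with
    | zero => constructor <;> norm_num [Qf]
    | succ n ih =>
      refine ⟨by rw [ih.2]; push_cast; ring, ?_⟩
      show Qf 0 (n + 2) = _
      rw [Qf, ih.1, ih.2]
      push_cast
      ring
  unfold Gf Aw
  have e : (6 * 0 / (1 - 0) : ℝ) = 0 := by norm_num
  rw [e, (hQ l).1]
  push_cast
  have h1 : ((l : ℝ) + 1) ≠ 0 := by positivity
  have h2 : ((l : ℝ) + 2) ≠ 0 := by positivity
  field_simp
  ring

theorem hasSum_pos (h7 : ST_C07) (l : ℕ) (hl : 1 ≤ l) :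
    HasSum (fun n => coeff n (TS one pos l)) (Aw l) := by
  have h := h7 0 l le_rfl (by norm_num) hl
  rw [Gf_zero] at h
  simpa using h

theorem NS_pos (h1 : ST_C01) (h4 : ST_C04) (h7 : ST_C07) (l : ℕ) (hl : 1 ≤ l) :
    NS (TS one pos l) :=
  ⟨coeff_TS_nonneg h1 _ _ _ (fun t => pos_nonneg h4 t l), (hasSum_pos h7 l hl).summable⟩

theorem TL_mono {a : PowerSeries ℝ} {c c' : ℝ} (h : TL a c) (hc : c ≤ c') : TL a c' := by
  refine ⟨h.1, fun ε hε => ?_⟩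
  filter_upwards [h.2 ε hε] with M hM
  refine hM.trans (mul_le_mul_of_nonneg_right (by linarith) (by positivity))

theorem H3_nonneg (l : ℤ) (hl : 0 ≤ l) : 0 ≤ H3 l := by
  have h : (0 : ℝ) ≤ l := by exact_mod_cast hl
  unfold H3
  positivity

theorem H3_le (l : ℤ) (hl : 0 ≤ l) : 8 * H3 l ≤ 4 * ((l : ℝ) + 1) ^ 4 := by
  have h : (0 : ℝ) ≤ l := by exact_mod_cast hl
  unfold H3
  generalize (l : ℝ) = x at h
  rw [← mul_div_assoc, div_le_iff₀ (by positivity)]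
  have : 0 ≤ 4 * (x + 1) ^ 4 * (35 * (x + 1) * (x + 2)) -
      8 * (x * (x + 3) * (5 * x ^ 4 + 30 * x ^ 3 + 59 * x ^ 2 + 42 * x + 4)) := by
    ring_nf
    positivity
  linarith

theorem H3_diff (m : ℕ) : 0 ≤ H3 ((m : ℤ) + 2) - H3 ((m : ℤ) + 1) ∧
    8 * (H3 ((m : ℤ) + 2) - H3 ((m : ℤ) + 1)) ≤ 8 * (((m : ℤ) + 2 : ℤ) + 1 : ℝ) ^ 3 := by
  have h : (0 : ℝ) ≤ m := by positivity
  unfold H3
  push_cast
  generalize (m : ℝ) = x at h
  have e : (x + 2) * (x + 2 + 3) * (5 * (x + 2) ^ 4 + 30 * (x + 2) ^ 3 + 59 * (x + 2) ^ 2 +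
      42 * (x + 2) + 4) / (35 * (x + 2 + 1) * (x + 2 + 2)) -
      (x + 1) * (x + 1 + 3) * (5 * (x + 1) ^ 4 + 30 * (x + 1) ^ 3 + 59 * (x + 1) ^ 2 +
      42 * (x + 1) + 4) / (35 * (x + 1 + 1) * (x + 1 + 2)) =
      ((x + 2) * (x + 2 + 3) * (5 * (x + 2) ^ 4 + 30 * (x + 2) ^ 3 + 59 * (x + 2) ^ 2 +
      42 * (x + 2) + 4) * (x + 2) - (x + 1) * (x + 1 + 3) * (5 * (x + 1) ^ 4 + 30 * (x + 1) ^ 3 +
      59 * (x + 1) ^ 2 + 42 * (x + 1) + 4) * (x + 4)) / (35 * (x + 2) * (x + 3) * (x + 4)) := by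
    have h1 : x + 2 ≠ 0 := by positivity
    have h2 : x + 3 ≠ 0 := by positivity
    have h3 : x + 4 ≠ 0 := by positivity
    have e1 : x + 2 + 1 = x + 3 := by ring
    have e2 : x + 2 + 2 = x + 4 := by ring
    have e3 : x + 1 + 1 = x + 2 := by ring
    have e4 : x + 1 + 2 = x + 3 := by ring
    rw [e1, e2, e3, e4]
    field_simp
  rw [e]
  constructor
  · apply div_nonneg _ (by positivity)
    ring_nf
    positivity
  · rw [← mul_div_assoc, div_le_iff₀ (by positivity), ← sub_nonneg]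
    ring_nf
    positivity

theorem Aw_diff (m : ℕ) : Aw ((m : ℤ) + 2) - Aw ((m : ℤ) + 1) =
    8 / ((((m : ℤ) + 2 : ℤ) : ℝ) * (((m : ℤ) + 2 : ℤ) + 1) * (((m : ℤ) + 2 : ℤ) + 2)) := by
  unfold Aw
  push_cast
  have h1 : (m : ℝ) + 2 ≠ 0 := by positivity
  have h2 : (m : ℝ) + 3 ≠ 0 := by positivity
  have h3 : (m : ℝ) + 4 ≠ 0 := by positivity
  have e1 : (m : ℝ) + 2 + 1 = m + 3 := by ring
  have e2 : (m : ℝ) + 2 + 2 = m + 4 := by ring
  have e3 : (m : ℝ) + 1 + 1 = m + 2 := by ring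
  have e4 : (m : ℝ) + 1 + 2 = m + 3 := by ring
  rw [e1, e2, e3, e4]
  field_simp
  ring

theorem st_C10 (h1 : ST_C01) (h4 : ST_C04) (h7 : ST_C07) (h8 : ST_C08) (h9 : ST_C09) : ST_C10 := by
  have key : ∀ y : ℝ, 0 ≤ y → y ≤ 1 / 2 → y < 1 := fun y _ h => by linarith
  constructor
  · intro l hl
    obtain ⟨m, rfl⟩ := Int.eq_ofNat_of_zero_le (by omega : 0 ≤ l)
    have hm : 1 ≤ m := by omega
    refine ⟨?_, (hasSum_pos h7 m hm).tsum_eq⟩
    obtain ⟨h2, K, hK⟩ := h8 m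
    refine TL_mono (h9 _ (Aw m) h2 (H3 m) K (NS_pos h1 h4 h7 m hm) ?_) ?_
    · intro y hy hy'
      rw [(h7 y m hy (key y hy hy') hm).tsum_eq]
      exact hK y hy hy'
    · rw [abs_of_nonneg (H3_nonneg _ (by omega))]
      exact H3_le _ (by omega)
  · intro l hl
    obtain ⟨m, hm⟩ := Int.eq_ofNat_of_zero_le (by omega : 0 ≤ l - 2)
    obtain rfl : l = (m : ℤ) + 2 := by linarith
    have e1 : (m : ℤ) + 2 - 1 = ((m + 1 : ℕ) : ℤ) := by push_cast; ring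
    have e2 : (m : ℤ) + 2 = ((m + 2 : ℕ) : ℤ) := by push_cast; ring
    have s1 := hasSum_pos h7 (m + 1) (by omega)
    have s2 := hasSum_pos h7 (m + 2) (by omega)
    have s3 := s2.sub s1
    have e3 : ∀ n, coeff n (TS one pos ((m : ℤ) + 2) - TS one pos ((m : ℤ) + 2 - 1)) =
        coeff n (TS one pos ((m + 2 : ℕ) : ℤ)) - coeff n (TS one pos ((m + 1 : ℕ) : ℤ)) := by
      intro n
      rw [map_sub, e1, e2]
    constructor
    · obtain ⟨p2, K, hK⟩ := h8 (m + 1)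
      obtain ⟨q2, K', hK'⟩ := h8 (m + 2)
      refine TL_mono (h9 _ (Aw ((m + 2 : ℕ) : ℤ) - Aw ((m + 1 : ℕ) : ℤ)) (q2 - p2)
        (H3 ((m + 2 : ℕ) : ℤ) - H3 ((m + 1 : ℕ) : ℤ)) (K' + K) ⟨?_, ?_⟩ ?_) ?_
      · intro n
        rw [map_sub, sub_nonneg]
        exact coeff_TS_le h1 _ _ _ _ _ _ (fun t => pos_mono h4 t _) n
      · simp only [e3]
        exact s3.summable
      · intro y hy hy'
        have t1 := h7 y (m + 1) hy (key y hy hy') (by omega)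
        have t2 := h7 y (m + 2) hy (key y hy hy') (by omega)
        have t3 := t2.sub t1
        have e4 : (∑' n, coeff n (TS one pos ((m : ℤ) + 2) - TS one pos ((m : ℤ) + 2 - 1)) *
            (1 - y ^ 2) ^ n) = Gf y (m + 2) - Gf y (m + 1) := by
          rw [← t3.tsum_eq]
          apply tsum_congr
          intro n
          rw [e3]
          ring
        rw [e4]
        have b1 := abs_le.1 (hK y hy hy')
        have b2 := abs_le.1 (hK' y hy hy')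
        rw [abs_le]
        constructor <;> nlinarith [b1.1, b1.2, b2.1, b2.2]
      · have hd := H3_diff m
        have e5 : H3 ((m + 2 : ℕ) : ℤ) - H3 ((m + 1 : ℕ) : ℤ) =
            H3 ((m : ℤ) + 2) - H3 ((m : ℤ) + 1) := by push_cast; rfl
        rw [e5, abs_of_nonneg hd.1]
        exact hd.2
    · rw [← Aw_diff]
      unfold tot
      simp only [e3]
      rw [s3.tsum_eq]
      push_cast
      rfl

end

end QR
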