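import Pool.Agent.Helper99.QR.C10

/-!
# Row C20: damping lowers the mass
-/

namespace QR

noncomputable section

open Filter Topology PowerSeries

theorem dmp_nonneg (κ : ℝ) (r j : ℤ) (hκ : κ ≤ 1) (l : ℤ) : 0 ≤ dmp κ r j l := by
  unfold dmp
  split_ifs <;> linarith

theorem dmp_le_one (κ : ℝ) (r j : ℤ) (hκ : 0 ≤ κ) (l : ℤ) : dmp κ r j l ≤ 1 := by
  unfold dmp
  split_ifs <;> linarith

theorem dmp_W_nonneg (h4 : ST_C04) (κ : ℝ) (hκ : κ ≤ 1) (r j : ℤ) (t : LT) (l : ℤ) :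
    0 ≤ t.W one (dmp κ r j) l := by
  classical
  rw [h4.2.1]
  split_ifs
  · exact pow_nonneg (by linarith) _
  · exact le_rfl

theorem dmp_W_le (h4 : ST_C04) (κ : ℝ) (h0 : 0 ≤ κ) (hκ : κ ≤ 1) (r : ℤ) (t : LT) (l : ℤ) :
    t.W one (dmp κ r 1) l ≤ t.W one pos l := by
  classical
  rw [h4.2.1, h4.1]
  split_ifs
  · exact pow_le_one₀ (by linarith) (by linarith)
  · exact le_rfl

/-- the supersolution -/
def sup20 (κ : ℝ) (r : ℤ) (l : ℤ) : ℝ :=
  if 0 ≤ l ∧ l ≤ r then 2 * (1 - Real.sqrt κ / 2 * (1 - ((l : ℝ) / r) ^ 2)) else 2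

theorem sup20_le (κ : ℝ) (r : ℤ) (hr : 1 ≤ r) (l : ℤ) : sup20 κ r l ≤ 2 := by
  unfold sup20
  split_ifs with h
  · have hr' : (0 : ℝ) < r := by exact_mod_cast (by omega : 0 < r)
    have h1 : (0 : ℝ) ≤ l := by exact_mod_cast h.1
    have h2 : (l : ℝ) ≤ r := by exact_mod_cast h.2
    have h3 : ((l : ℝ) / r) ^ 2 ≤ 1 := by
      apply pow_le_one₀ (by positivity)
      rw [div_le_one hr']
      exact h2
    have h4 := Real.sqrt_nonneg κ
    nlinarith [mul_nonneg h4 (sub_nonneg.2 h3)]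
  · exact le_rfl

theorem sup20_ge (κ : ℝ) (hκ : Real.sqrt κ ≤ 1 / 4) (r : ℤ) (l : ℤ) :
    7 / 4 ≤ sup20 κ r l := by
  unfold sup20
  split_ifs with h
  · have h3 : 0 ≤ ((l : ℝ) / r) ^ 2 := by positivity
    have h4 := Real.sqrt_nonneg κ
    nlinarith [mul_nonneg h4 h3]
  · norm_num

theorem sup20_super (κ : ℝ) (r : ℤ) (h0 : 0 < κ) (hκ : κ ≤ 1 / 16) (hr : 1 ≤ r)
    (h1 : 1 / (r : ℝ) ^ 2 ≤ Real.sqrt κ) (l : ℤ) (hl : 1 ≤ l) :
    one l * (1 + 1 / 12 * (dmp κ r 1 (l - 1) * sup20 κ r (l - 1) + dmp κ r 1 l * sup20 κ r l +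
      dmp κ r 1 (l + 1) * sup20 κ r (l + 1)) * sup20 κ r l) ≤ sup20 κ r l := by
  have hs0 := Real.sqrt_nonneg κ
  have hs2 : Real.sqrt κ ^ 2 = κ := Real.sq_sqrt h0.le
  have hs : Real.sqrt κ ≤ 1 / 4 := by
    rw [show (1 / 4 : ℝ) = Real.sqrt (1 / 16) by
      rw [show (1 / 16 : ℝ) = (1 / 4) ^ 2 by norm_num, Real.sqrt_sq (by norm_num)]]
    exact Real.sqrt_le_sqrt hκ
  have hr' : (0 : ℝ) < r := by exact_mod_cast (by omega : 0 < r)
  have hd0 := dmp_nonneg κ r 1 (by linarith)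
  have hd1 := dmp_le_one κ r 1 h0.le
  have hu := sup20_le κ r hr
  have hg : ∀ l, 0 ≤ sup20 κ r l := fun l => le_trans (by norm_num) (sup20_ge κ hs r l)
  have hp : ∀ x, dmp κ r 1 x * sup20 κ r x ≤ sup20 κ r x := fun x =>
    mul_le_of_le_one_left (hg x) (hd1 x)
  rw [show one l = 1 from rfl, one_mul]
  by_cases hlr : r ≤ l
  · have e : sup20 κ r l = 2 := by
      unfold sup20
      split_ifs with h
      · obtain rfl : l = r := le_antisymm h.2 hlr
        rw [div_self hr'.ne']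
        ring
      · rfl
    rw [e]
    have a1 := (hp (l - 1)).trans (hu _)
    have a2 := (hp l).trans (hu _)
    have a3 := (hp (l + 1)).trans (hu _)
    rw [e] at a2
    linarith
  · push Not at hlr
    have e1 : sup20 κ r (l - 1) = 2 * (1 - Real.sqrt κ / 2 * (1 - (((l : ℝ) - 1) / r) ^ 2)) := by
      unfold sup20
      rw [if_pos (by constructor <;> omega)]
      push_cast
      rfl
    have e2 : sup20 κ r l = 2 * (1 - Real.sqrt κ / 2 * (1 - ((l : ℝ) / r) ^ 2)) := by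
      unfold sup20
      rw [if_pos (by constructor <;> omega)]
    have e3 : sup20 κ r (l + 1) = 2 * (1 - Real.sqrt κ / 2 * (1 - (((l : ℝ) + 1) / r) ^ 2)) := by
      unfold sup20
      rw [if_pos (by constructor <;> omega)]
      push_cast
      rfl
    have d1 : dmp κ r 1 (l - 1) ≤ 1 - κ := by
      unfold dmp
      split_ifs
      · linarith
      · exact le_rfl
      · omega
    have d2 : dmp κ r 1 l = 1 - κ := by
      unfold dmp
      rw [if_neg (by omega), if_pos (by omega)]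
    have d3 : dmp κ r 1 (l + 1) = 1 - κ := by
      unfold dmp
      rw [if_neg (by omega), if_pos (by omega)]
    have a1 : dmp κ r 1 (l - 1) * sup20 κ r (l - 1) ≤ (1 - κ) * sup20 κ r (l - 1) :=
      mul_le_mul_of_nonneg_right d1 (hg _)
    set β : ℝ := Real.sqrt κ / 2 * (1 - ((l : ℝ) / r) ^ 2) with hβ
    set η : ℝ := Real.sqrt κ / 3 * (1 / (r : ℝ) ^ 2) with hη
    have hsum : sup20 κ r (l - 1) + sup20 κ r l + sup20 κ r (l + 1) = 6 * (1 - β + η) := by
      rw [e1, e2, e3, hβ, hη]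
      field_simp
      ring
    have hl1 : (0 : ℝ) ≤ l := by exact_mod_cast (by omega : 0 ≤ l)
    have hl2 : (l : ℝ) ≤ r := by exact_mod_cast hlr.le
    have hq0 : 0 ≤ ((l : ℝ) / r) ^ 2 := by positivity
    have hq1 : ((l : ℝ) / r) ^ 2 ≤ 1 := by
      apply pow_le_one₀ (by positivity)
      rw [div_le_one hr']
      exact hl2
    have hβ0 : 0 ≤ β := by
      rw [hβ]
      exact mul_nonneg (by linarith) (by linarith)
    have hβ1 : β ≤ Real.sqrt κ / 2 := by
      rw [hβ]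
      nlinarith [mul_nonneg hs0 hq0]
    have hη0 : 0 ≤ η := by
      rw [hη]
      positivity
    have hη1 : η ≤ κ / 3 := by
      rw [hη]
      nlinarith [mul_le_mul_of_nonneg_left h1 hs0]
    have hββ : β ^ 2 ≤ κ / 4 := by nlinarith
    have e2' : sup20 κ r l = 2 * (1 - β) := e2
    have hmain : 1 + 1 / 12 * ((1 - κ) * (6 * (1 - β + η))) * (2 * (1 - β)) ≤ 2 * (1 - β) := by
      have b1 : 7 / 8 ≤ 1 - β := by linarith
      have b2 : 49 / 64 ≤ (1 - β) ^ 2 := by nlinarith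
      have b3 : κ * (49 / 64) ≤ κ * (1 - β) ^ 2 := mul_le_mul_of_nonneg_left b2 h0.le
      have b4 : (1 - κ) * (η * (1 - β)) ≤ κ / 3 := by
        have c1 : η * (1 - β) ≤ κ / 3 := by nlinarith
        have c2 : 0 ≤ η * (1 - β) := mul_nonneg hη0 (by linarith)
        nlinarith
      nlinarith
    refine le_trans ?_ (le_of_le_of_eq hmain e2'.symm)
    rw [e2']
    have b5 : dmp κ r 1 (l - 1) * sup20 κ r (l - 1) + dmp κ r 1 l * (2 * (1 - β)) +
        dmp κ r 1 (l + 1) * sup20 κ r (l + 1) ≤ (1 - κ) * (6 * (1 - β + η)) := by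
      rw [← hsum, d2, d3, e2']
      linarith
    have b6 : 0 ≤ 2 * (1 - β) := by linarith
    have b7 := mul_le_mul_of_nonneg_right b5 b6
    linarith

theorem st_C20 (h1 : ST_C01) (h4 : ST_C04) (h5 : ST_C05) (h10 : ST_C10) : ST_C20 := by
  intro κ r h0 hκ hr hκr l hl
  have hs : Real.sqrt κ ≤ 1 / 4 := by
    rw [show (1 / 4 : ℝ) = Real.sqrt (1 / 16) by
      rw [show (1 / 16 : ℝ) = (1 / 4) ^ 2 by norm_num, Real.sqrt_sq (by norm_num)]]
    exact Real.sqrt_le_sqrt hκ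
  have hg : ∀ l, 0 ≤ sup20 κ r l := fun l => le_trans (by norm_num) (sup20_ge κ hs r l)
  have h := h5 one (dmp κ r 1) (sup20 κ r) (fun _ => zero_le_one) (dmp_nonneg κ r 1 (by linarith))
    (fun l hl => by unfold dmp; rw [if_pos hl]) hg (sup20_super κ r h0 hκ hr hκr) l hl
  refine ⟨h.1, ?_, ?_⟩
  · have hp := (h10.1 l hl)
    rw [← hp.2]
    exact h.1.2.tsum_le_tsum (fun n => coeff_TS_le h1 _ _ _ _ _ _
      (fun t => dmp_W_le h4 κ h0.le (by linarith) r t l) n) hp.1.1.2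
  · intro hlr
    have e2 : sup20 κ r l = 2 * (1 - Real.sqrt κ / 2 * (1 - ((l : ℝ) / r) ^ 2)) := by
      unfold sup20
      rw [if_pos (by constructor <;> omega)]
    rw [← e2]
    exact h.2

end

end QR
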