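import Pool.Agent.Helper99.QR.C20

/-!
# Row C21: the difference series
-/

namespace QR

noncomputable section

open Filter Topology PowerSeries

theorem ge_two_iff (h4 : ST_C04) (t : LT) (l : ℤ) : t.ge 2 l ↔ t.ge 1 (l - 1) := by
  have h := h4.2.2.2.1 t (l - 1) 1
  rw [sub_add_cancel] at h
  exact h

theorem ge_two_one (h4 : ST_C04) (t : LT) (l : ℤ) (h : t.ge 2 l) : t.ge 1 l :=
  h4.2.2.2.2.1 t l 1 h

theorem dmp2_le_dmp1 (h4 : ST_C04) (κ : ℝ) (hκ : κ ≤ 1) (r : ℤ) (t : LT) (l : ℤ) :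
    t.W one (dmp κ r 2) l ≤ t.W one (dmp κ r 1) l := by
  classical
  rw [h4.2.1, h4.2.1]
  by_cases h : t.ge 2 l
  · rw [if_pos h, if_pos (ge_two_one h4 t l h)]
  · rw [if_neg h]
    split_ifs
    · exact pow_nonneg (by linarith) _
    · exact le_rfl

theorem dmp_diff_le (h4 : ST_C04) (κ : ℝ) (h0 : 0 ≤ κ) (hκ : κ ≤ 1) (r : ℤ) (t : LT) (l : ℤ) :
    t.W one (dmp κ r 1) l - t.W one (dmp κ r 2) l ≤ t.W one pos l - t.W one pos (l - 1) := by
  classical
  rw [h4.2.1, h4.2.1, h4.1, h4.1]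
  by_cases h : t.ge 2 l
  · have h3 : t.ge 1 l := ge_two_one h4 t l h
    have h5 : t.ge 1 (l - 1) := (ge_two_iff h4 t l).1 h
    simp [h, h3, h5]
  · rw [if_neg h, if_neg (fun h' => h ((ge_two_iff h4 t l).2 h'))]
    split_ifs
    · have := pow_le_one₀ (n := t.low r l) (by linarith : 0 ≤ 1 - κ) (by linarith)
      linarith
    · exact le_rfl

theorem dmp2_W_le (h4 : ST_C04) (κ : ℝ) (h0 : 0 ≤ κ) (hκ : κ ≤ 1) (r : ℤ) (t : LT) (l : ℤ) :
    t.W one (dmp κ r 2) l ≤ t.W one pos (l - 1) := by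
  classical
  rw [h4.2.1, h4.1]
  by_cases h : t.ge 2 l
  · rw [if_pos h, if_pos ((ge_two_iff h4 t l).1 h)]
    exact pow_le_one₀ (by linarith) (by linarith)
  · rw [if_neg h, if_neg (fun h' => h ((ge_two_iff h4 t l).2 h'))]

theorem coeff_TS_diff_le (h1 : ST_C01) (ω θ ω1 θ1 ω2 θ2 ω3 θ3 : ℤ → ℝ) (l l1 l2 l3 : ℤ)
    (h : ∀ t : LT, t.W ω θ l - t.W ω1 θ1 l1 ≤ t.W ω2 θ2 l2 - t.W ω3 θ3 l3) (n : ℕ) :
    coeff n (TS ω θ l) - coeff n (TS ω1 θ1 l1) ≤ coeff n (TS ω2 θ2 l2) - coeff n (TS ω3 θ3 l3) := by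
  rw [coeff_TS h1, coeff_TS h1, coeff_TS h1, coeff_TS h1, ← mul_sub, ← mul_sub,
    ← Finset.sum_sub_distrib, ← Finset.sum_sub_distrib]
  exact mul_le_mul_of_nonneg_left (Finset.sum_le_sum fun t _ => h t) (by positivity)

theorem TS_mul (h2 : ST_C02) (θ : ℤ → ℝ) (l : ℤ) : TS one θ l * (1 - C (1 / 12) * X *
    (C (θ (l - 1)) * TS one θ (l - 1) + C (θ l) * TS one θ l +
      C (θ (l + 1)) * TS one θ (l + 1))) = 1 := by
  have h := h2 one θ l
  rw [show one l = 1 from rfl, map_one, one_mul] at h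
  linear_combination h

theorem DD_term (κ : ℝ) (r : ℤ) (x : ℤ) (hx : 1 ≤ x) :
    C (dmp κ r 1 x) * TS one (dmp κ r 1) x - C (dmp κ r 2 x) * TS one (dmp κ r 2) x =
      C (dmp κ r 1 x) * DD κ r x := by
  unfold DD
  by_cases h : 2 ≤ x
  · have e : dmp κ r 2 x = dmp κ r 1 x := by
      have a1 : ¬ x < 2 := by omega
      have a2 : ¬ x < 1 := by omega
      simp [dmp, a1, a2]
    rw [if_pos h, e]
    ring
  · have e : dmp κ r 2 x = 0 := by
      unfold dmp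
      rw [if_pos (by omega)]
    rw [if_neg h, e]
    simp

theorem st_C21 (h1 : ST_C01) (h2 : ST_C02) (h4 : ST_C04) (h10 : ST_C10) (h11 : ST_C11) :
    ST_C21 := by
  intro κ r h0 hκ hr
  refine ⟨?_, ?_, ?_⟩
  · intro l hl
    have m1 := TS_mul h2 (dmp κ r 1) l
    have m2 := TS_mul h2 (dmp κ r 2) l
    have t1 := DD_term κ r (l - 1) (by omega)
    have t2 := DD_term κ r l (by omega)
    have t3 := DD_term κ r (l + 1) (by omega)
    rw [← t1, ← t2, ← t3]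
    conv_lhs => unfold DD
    rw [if_pos hl]
    linear_combination TS one (dmp κ r 2) l * m1 - TS one (dmp κ r 1) l * m2
  · intro l hl
    by_cases hl2 : 2 ≤ l
    · have hp := h10.2 l hl2
      have c1 : ∀ n, coeff n (DD κ r l) = coeff n (TS one (dmp κ r 1) l) -
          coeff n (TS one (dmp κ r 2) l) := by
        intro n
        unfold DD
        rw [if_pos hl2, map_sub]
      have c0 : ∀ n, 0 ≤ coeff n (DD κ r l) := by
        intro n
        rw [c1, sub_nonneg]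
        exact coeff_TS_le h1 _ _ _ _ _ _ (fun t => dmp2_le_dmp1 h4 κ hκ.le r t l) n
      have c2 : ∀ n, coeff n (DD κ r l) ≤ coeff n (TS one pos l - TS one pos (l - 1)) := by
        intro n
        rw [c1, map_sub]
        exact coeff_TS_diff_le h1 _ _ _ _ _ _ _ _ _ _ _ _
          (fun t => dmp_diff_le h4 κ h0.le hκ.le r t l) n
      have hs : Summable (fun n => coeff n (DD κ r l)) :=
        Summable.of_nonneg_of_le c0 c2 hp.1.1.2
      refine ⟨⟨c0, hs⟩, ?_, h11.2.2.2.1 _ _ _ c0 c2 hp.1⟩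
      rw [← hp.2]
      exact hs.tsum_le_tsum c2 hp.1.1.2
    · obtain rfl : l = 1 := by omega
      have hp := h10.1 1 le_rfl
      have e : DD κ r 1 = TS one (dmp κ r 1) 1 := by
        unfold DD
        rw [if_neg hl2, sub_zero]
      rw [e]
      have c0 : ∀ n, 0 ≤ coeff n (TS one (dmp κ r 1) 1) :=
        coeff_TS_nonneg h1 _ _ _ (fun t => dmp_W_nonneg h4 κ hκ.le r 1 t 1)
      have c2 : ∀ n, coeff n (TS one (dmp κ r 1) 1) ≤ coeff n (TS one pos 1) :=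
        coeff_TS_le h1 _ _ _ _ _ _ (fun t => dmp_W_le h4 κ h0.le hκ.le r t 1)
      have hs : Summable (fun n => coeff n (TS one (dmp κ r 1) 1)) :=
        Summable.of_nonneg_of_le c0 c2 hp.1.1.2
      refine ⟨⟨c0, hs⟩, ?_, ?_⟩
      · have e2 : (8 / (((1 : ℤ) : ℝ) * ((1 : ℤ) + 1) * ((1 : ℤ) + 2)) : ℝ) = Aw 1 := by
          unfold Aw
          norm_num
        rw [e2, ← hp.2]
        exact hs.tsum_le_tsum c2 hp.1.1.2
      · refine TL_mono (h11.2.2.2.1 _ _ _ c0 c2 hp.1) ?_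
        norm_num
  · intro l hl j hj hjl
    have q : ∀ (j : ℤ), 1 ≤ l - j + 1 →
        (∀ t : LT, t.W one (dmp κ r j) l ≤ t.W one pos (l - j + 1)) →
        NS (TS one (dmp κ r j) l) ∧
        (∀ n, coeff n (TS one (dmp κ r j) l) ≤ coeff n (TS one pos (l - j + 1))) := by
      intro j hj hW
      have c0 : ∀ n, 0 ≤ coeff n (TS one (dmp κ r j) l) :=
        coeff_TS_nonneg h1 _ _ _ (fun t => dmp_W_nonneg h4 κ hκ.le r j t l)
      have c2 : ∀ n, coeff n (TS one (dmp κ r j) l) ≤ coeff n (TS one pos (l - j + 1)) :=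
        coeff_TS_le h1 _ _ _ _ _ _ hW
      exact ⟨⟨c0, Summable.of_nonneg_of_le c0 c2 (h10.1 _ hj).1.1.2⟩, c2⟩
    have w1 : ∀ t : LT, t.W one (dmp κ r 1) l ≤ t.W one pos (l - 1 + 1) := by
      intro t
      rw [sub_add_cancel]
      exact dmp_W_le h4 κ h0.le hκ.le r t l
    have w2 : ∀ t : LT, t.W one (dmp κ r 2) l ≤ t.W one pos (l - 2 + 1) := by
      intro t
      rw [show l - 2 + 1 = l - 1 by ring]
      exact dmp2_W_le h4 κ h0.le hκ.le r t l
    have q1 := q 1 (by omega) w1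
    have h12 : tot (TS one (dmp κ r 2) l) ≤ tot (TS one (dmp κ r 1) l) := by
      have c0 : ∀ n, 0 ≤ coeff n (TS one (dmp κ r 2) l) :=
        coeff_TS_nonneg h1 _ _ _ (fun t => dmp_W_nonneg h4 κ hκ.le r 2 t l)
      have c2 : ∀ n, coeff n (TS one (dmp κ r 2) l) ≤ coeff n (TS one (dmp κ r 1) l) :=
        coeff_TS_le h1 _ _ _ _ _ _ (fun t => dmp2_le_dmp1 h4 κ hκ.le r t l)
      exact (Summable.of_nonneg_of_le c0 c2 q1.1.2).tsum_le_tsum c2 q1.1.2
    simp only [Set.mem_insert_iff, Set.mem_singleton_iff] at hj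
    rcases hj with rfl | rfl
    · exact ⟨q1.1, q1.2, h12⟩
    · have q2 := q 2 (by omega) w2
      exact ⟨q2.1, q2.2, h12⟩

end

end QR
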