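import Pool.Agent.Helper99.QR.A03

/-!
# Row A07, part 1: lemmas on permutations
-/

namespace QR

noncomputable section

open Filter Topology

variable {S S' : Type}

theorem compl_closed [Finite S] (α : Equiv.Perm S) (T : Set S) (hT : ∀ x ∈ T, α x ∈ T) :
    ∀ x ∉ T, α x ∉ T := by
  intro x hx h
  have h1 : α.SameCycle (α x) x := Equiv.Perm.SameCycle.symm ⟨1, by simp⟩
  exact hx (sc_closed T hT h h1)

theorem pow_congr_on (α β : Equiv.Perm S) (Z : Set S) (hZ : ∀ z ∈ Z, α z ∈ Z)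
    (h : ∀ z ∈ Z, β z = α z) (n : ℕ) : ∀ z ∈ Z, (β ^ n) z = (α ^ n) z ∧ (α ^ n) z ∈ Z := by
  induction n with
  | zero => intro z hz; exact ⟨rfl, hz⟩
  | succ n ih =>
    intro z hz
    obtain ⟨h1, h2⟩ := ih z hz
    rw [pow_succ', pow_succ', Equiv.Perm.mul_apply, Equiv.Perm.mul_apply, h1]
    exact ⟨h _ h2, hZ _ h2⟩

theorem sc_congr_on [Finite S] (α β : Equiv.Perm S) (Z : Set S) (hZ : ∀ z ∈ Z, α z ∈ Z)
    (h : ∀ z ∈ Z, β z = α z) {z w : S} (hz : z ∈ Z) : β.SameCycle z w ↔ α.SameCycle z w := by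
  constructor
  · intro h1
    obtain ⟨n, hn⟩ := sc_exists_pow h1
    rw [(pow_congr_on α β Z hZ h n z hz).1] at hn
    exact ⟨n, by rw [zpow_natCast]; exact hn⟩
  · intro h1
    obtain ⟨n, hn⟩ := sc_exists_pow h1
    rw [← (pow_congr_on α β Z hZ h n z hz).1] at hn
    exact ⟨n, by rw [zpow_natCast]; exact hn⟩

theorem csize_congr_on [Finite S] (α β : Equiv.Perm S) (Z : Set S) (hZ : ∀ z ∈ Z, α z ∈ Z)
    (h : ∀ z ∈ Z, β z = α z) {z : S} (hz : z ∈ Z) :
    Nat.card {w // β.SameCycle z w} = Nat.card {w // α.SameCycle z w} :=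
  Nat.card_congr (Equiv.subtypeEquivRight fun _ => sc_congr_on α β Z hZ h hz)

theorem pow_map_on (a : Equiv.Perm S') (α : Equiv.Perm S) (j : S' → S) (Z : Set S')
    (hZ : ∀ z ∈ Z, a z ∈ Z) (h : ∀ z ∈ Z, α (j z) = j (a z)) (n : ℕ) :
    ∀ z ∈ Z, (α ^ n) (j z) = j ((a ^ n) z) ∧ (a ^ n) z ∈ Z := by
  induction n with
  | zero => intro z hz; exact ⟨rfl, hz⟩
  | succ n ih =>
    intro z hz
    obtain ⟨h1, h2⟩ := ih z hz
    rw [pow_succ', pow_succ', Equiv.Perm.mul_apply, Equiv.Perm.mul_apply, h1]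
    exact ⟨h _ h2, hZ _ h2⟩

theorem sc_map_on [Finite S] [Finite S'] (a : Equiv.Perm S') (α : Equiv.Perm S) (j : S' → S)
    (Z : Set S') (hZ : ∀ z ∈ Z, a z ∈ Z) (h : ∀ z ∈ Z, α (j z) = j (a z)) {z : S'} (hz : z ∈ Z)
    (x : S) : α.SameCycle (j z) x ↔ ∃ e, a.SameCycle z e ∧ j e = x := by
  constructor
  · intro h1
    obtain ⟨n, hn⟩ := sc_exists_pow h1
    rw [(pow_map_on a α j Z hZ h n z hz).1] at hn
    exact ⟨_, ⟨n, by rw [zpow_natCast]⟩, hn⟩
  · rintro ⟨e, h1, rfl⟩
    obtain ⟨n, rfl⟩ := sc_exists_pow h1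
    exact ⟨n, by rw [zpow_natCast]; exact (pow_map_on a α j Z hZ h n z hz).1⟩

theorem csize_map_on [Finite S] [Finite S'] (a : Equiv.Perm S') (α : Equiv.Perm S) (j : S' → S)
    (hj : Function.Injective j)
    (Z : Set S') (hZ : ∀ z ∈ Z, a z ∈ Z) (h : ∀ z ∈ Z, α (j z) = j (a z)) {z : S'} (hz : z ∈ Z) :
    Nat.card {w // α.SameCycle (j z) w} = Nat.card {e // a.SameCycle z e} := by
  symm
  refine Nat.card_congr (Equiv.ofBijective
    (fun e => ⟨j e.1, (sc_map_on a α j Z hZ h hz _).2 ⟨e.1, e.2, rfl⟩⟩) ⟨?_, ?_⟩)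
  · intro e e' he
    exact Subtype.ext (hj (congrArg Subtype.val he))
  · rintro ⟨x, hx⟩
    obtain ⟨e, he, rfl⟩ := (sc_map_on a α j Z hZ h hz x).1 hx
    exact ⟨⟨e, he⟩, rfl⟩

open Classical in
/-- the number of cycles is the sum of the inverse sizes -/
theorem cyc_sum [Fintype S] (σ : Equiv.Perm S) :
    (Nat.card (Cyc σ) : ℚ) = ∑ d : S, 1 / (Nat.card {w // σ.SameCycle d w} : ℚ) := by
  have h1 : ∀ q : Cyc σ, ∑ d ∈ Finset.univ.filter
      (fun d => (Quotient.mk (Equiv.Perm.SameCycle.setoid σ) d : Cyc σ) = q),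
      1 / (Nat.card {w // σ.SameCycle d w} : ℚ) = 1 := by
    intro q
    induction q using Quotient.inductionOn with
    | _ x =>
    have e1 : ∀ d, (Quotient.mk (Equiv.Perm.SameCycle.setoid σ) d : Cyc σ) =
        Quotient.mk (Equiv.Perm.SameCycle.setoid σ) x ↔ σ.SameCycle x d := by
      intro d
      rw [Quotient.eq]
      exact ⟨fun h => Equiv.Perm.SameCycle.symm h, fun h => Equiv.Perm.SameCycle.symm h⟩
    have e2 : (Finset.univ.filter
        (fun d => (Quotient.mk (Equiv.Perm.SameCycle.setoid σ) d : Cyc σ) =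
          Quotient.mk (Equiv.Perm.SameCycle.setoid σ) x)) =
        Finset.univ.filter (fun d => σ.SameCycle x d) := by
      ext d
      simp only [Finset.mem_filter, Finset.mem_univ, true_and]
      exact e1 d
    rw [e2]
    have e3 : ∀ d ∈ Finset.univ.filter (fun d => σ.SameCycle x d),
        1 / (Nat.card {w // σ.SameCycle d w} : ℚ) = 1 / (Nat.card {w // σ.SameCycle x w} : ℚ) := by
      intro d hd
      rw [Finset.mem_filter] at hd
      have : Nat.card {w // σ.SameCycle d w} = Nat.card {w // σ.SameCycle x w} :=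
        Nat.card_congr (Equiv.subtypeEquivRight fun w =>
          ⟨fun h => hd.2.trans h, fun h => hd.2.symm.trans h⟩)
      rw [this]
    rw [Finset.sum_congr rfl e3, Finset.sum_const, nsmul_eq_mul]
    have e4 : (Finset.univ.filter (fun d => σ.SameCycle x d)).card =
        Nat.card {w // σ.SameCycle x w} := by
      rw [Nat.card_eq_fintype_card, Fintype.card_subtype]
    rw [e4]
    have e5 : (Nat.card {w // σ.SameCycle x w} : ℚ) ≠ 0 := by
      have : Nonempty {w // σ.SameCycle x w} := ⟨⟨x, Equiv.Perm.SameCycle.refl _ _⟩⟩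
      exact_mod_cast Nat.card_pos.ne'
    rw [mul_one_div_cancel e5]
  rw [← Finset.sum_fiberwise (s := Finset.univ)
    (g := fun d => (Quotient.mk (Equiv.Perm.SameCycle.setoid σ) d : Cyc σ)), Finset.sum_congr rfl
    (fun q _ => h1 q), Finset.sum_const, nsmul_eq_mul, mul_one, Finset.card_univ,
    Nat.card_eq_fintype_card]

open Classical in
/-- replacing a part of a permutation -/
theorem repl_perm (α : Equiv.Perm S) (j j'' : S' → S) (hj : Function.Injective j)
    (hj'' : Function.Injective j'') (hr : Set.range j'' = Set.range j) (a a'' : Equiv.Perm S')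
    (ha : ∀ d, j (a d) = α (j d)) :
    ∃ β : Equiv.Perm S, (∀ d, β (j'' d) = j'' (a'' d)) ∧ ∀ x ∉ Set.range j'', β x = α x := by
  let e : S' ≃ {x // x ∈ Set.range j} := Equiv.ofInjective j hj
  let e'' : S' ≃ {x // x ∈ Set.range j''} := Equiv.ofInjective j'' hj''
  have he : ∀ d, (e d : S) = j d := fun d => rfl
  have he'' : ∀ d, (e'' d : S) = j'' d := fun d => rfl
  have h1 : ∀ d, a.extendDomain e (j d) = j (a d) := by
    intro d
    rw [← he, Equiv.Perm.extendDomain_apply_image, he]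
  have h2 : ∀ d, a''.extendDomain e'' (j'' d) = j'' (a'' d) := by
    intro d
    rw [← he'', Equiv.Perm.extendDomain_apply_image, he'']
  refine ⟨α * (a.extendDomain e)⁻¹ * a''.extendDomain e'', ?_, ?_⟩
  · intro d
    rw [Equiv.Perm.mul_apply, h2]
    obtain ⟨d', hd'⟩ : j'' (a'' d) ∈ Set.range j := by rw [← hr]; exact ⟨_, rfl⟩
    rw [← hd', Equiv.Perm.mul_apply]
    have h3 : (a.extendDomain e)⁻¹ (j d') = j (a⁻¹ d') := by
      rw [Equiv.Perm.inv_eq_iff_eq, h1]
      simp
    rw [h3, ← ha]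
    simp
  · intro x hx
    have hx' : x ∉ Set.range j := by rwa [← hr]
    rw [Equiv.Perm.mul_apply, Equiv.Perm.extendDomain_apply_not_subtype _ _ hx,
      Equiv.Perm.mul_apply]
    congr 1
    rw [Equiv.Perm.inv_eq_iff_eq, Equiv.Perm.extendDomain_apply_not_subtype _ _ hx']

/-- relabelling so that the cycles of two permutations agree -/
theorem exists_theta [Finite S] (f' f'' : Equiv.Perm S) (o' o'' : S) (c : ℕ)
    (h' : Nat.card {d // f'.SameCycle o' d} = c) (h'' : Nat.card {d // f''.SameCycle o'' d} = c) :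
    ∃ θ : Equiv.Perm S, ∀ i : ℕ, θ ((f'' ^ i) o'') = (f' ^ i) o' := by
  classical
  have := Fintype.ofFinite S
  have key : ∀ (f : Equiv.Perm S) (o : S), Nat.card {d // f.SameCycle o d} = c →
      ∀ i k : ℕ, (f ^ i) o = (f ^ k) o ↔ i ≡ k [MOD c] := by
    intro f o hc i k
    set s : Finset S := Finset.univ.filter (fun d => f.SameCycle o d) with hs
    have hcard : s.card = c := by
      rw [← hc, Nat.card_eq_fintype_card, Fintype.card_subtype]
    have hcyc : f.IsCycleOn s := by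
      constructor
      · refine ⟨?_, f.injective.injOn, ?_⟩
        · intro x hx
          simp only [hs, Finset.coe_filter, Finset.mem_univ, true_and, Set.mem_ofPred_eq] at hx ⊢
          exact hx.trans ⟨1, by simp⟩
        · intro x hx
          simp only [hs, Finset.coe_filter, Finset.mem_univ, true_and, Set.mem_ofPred_eq] at hx
          refine ⟨f⁻¹ x, ?_, by simp⟩
          simp only [hs, Finset.coe_filter, Finset.mem_univ, true_and, Set.mem_ofPred_eq]
          exact hx.trans ⟨-1, by simp⟩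
      · intro x hx y hy
        simp only [hs, Finset.coe_filter, Finset.mem_univ, true_and, Set.mem_ofPred_eq] at hx hy
        exact hx.symm.trans hy
    have ho : o ∈ s := by
      simp only [hs, Finset.mem_filter, Finset.mem_univ, true_and]
      exact Equiv.Perm.SameCycle.refl _ _
    rw [hcyc.pow_apply_eq_pow_apply ho, hcard]
  have k' := key f' o' h'
  have k'' := key f'' o'' h''
  have hch : ∀ x : {d // f''.SameCycle o'' d}, ∃ i : ℕ, (f'' ^ i) o'' = x.1 := fun x =>
    sc_exists_pow x.2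
  choose idx hidx using hch
  let g : {d // f''.SameCycle o'' d} → {d // f'.SameCycle o' d} := fun x =>
    ⟨(f' ^ idx x) o', ⟨idx x, by rw [zpow_natCast]⟩⟩
  have hg : ∀ (i : ℕ) (h : f''.SameCycle o'' ((f'' ^ i) o'')), (g ⟨_, h⟩ : S) = (f' ^ i) o' := by
    intro i h
    have h1 := hidx ⟨_, h⟩
    exact (k' _ _).2 ((k'' _ _).1 h1)
  have hbij : Function.Bijective g := by
    constructor
    · intro x y h
      have h1 : (f' ^ idx x) o' = (f' ^ idx y) o' := congrArg Subtype.val h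
      apply Subtype.ext
      rw [← hidx x, ← hidx y]
      exact (k'' _ _).2 ((k' _ _).1 h1)
    · rintro ⟨x, hx⟩
      obtain ⟨i, rfl⟩ := sc_exists_pow hx
      refine ⟨⟨(f'' ^ i) o'', ⟨i, by rw [zpow_natCast]⟩⟩, ?_⟩
      exact Subtype.ext (hg i _)
  let e := Equiv.ofBijective g hbij
  refine ⟨e.extendSubtype, fun i => ?_⟩
  have hm : f''.SameCycle o'' ((f'' ^ i) o'') := ⟨i, by rw [zpow_natCast]⟩
  rw [Equiv.extendSubtype_apply_of_mem e _ hm]
  exact hg i hm

end

end QR
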