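import Pool.Agent.Helper99.QR.A07a

/-!
# Row A07, part 2: replacing the core
-/

namespace QR

noncomputable section

open Filter Topology

theorem face_apply {D : Type} (m : RMap D) (d : D) : m.face d = m.rot (m.opp d) := rfl

open Classical in
/-- number of faces, number of vertices of a quadrangulation -/
theorem faces_of_deg {D : Type} [Finite D] (m : RMap D) (o : D) (N P : ℕ) (hP : 1 ≤ P)
    (h1 : m.fdeg o = 2 * P) (h2 : ∀ d, ¬ m.face.SameCycle o d → m.fdeg d = 4)
    (h3 : Nat.card D = 4 * N + 2 * P) : Nat.card m.Face = N + 1 := by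
  have := Fintype.ofFinite D
  have h4 : (Nat.card m.Face : ℚ) = ∑ d : D, 1 / (m.fdeg d : ℚ) := cyc_sum m.face
  have h5 : ∀ d : D, 1 / (m.fdeg d : ℚ) = if m.face.SameCycle o d then 1 / (2 * P : ℚ) else 1 / 4 := by
    intro d
    by_cases hd : m.face.SameCycle o d
    · have : m.fdeg d = m.fdeg o := Nat.card_congr (Equiv.subtypeEquivRight fun w =>
          ⟨fun h => hd.trans h, fun h => hd.symm.trans h⟩)
      rw [if_pos hd, this, h1]
      push_cast
      rfl
    · rw [if_neg hd, h2 d hd]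
      norm_num
  rw [Finset.sum_congr rfl (fun d _ => h5 d), Finset.sum_ite, Finset.sum_const, Finset.sum_const,
    nsmul_eq_mul, nsmul_eq_mul] at h4
  have h6 : (Finset.univ.filter (fun d => m.face.SameCycle o d)).card = 2 * P := by
    rw [← h1]
    unfold RMap.fdeg
    rw [Nat.card_eq_fintype_card, Fintype.card_subtype]
  have h7 : (Finset.univ.filter (fun d => m.face.SameCycle o d)).card +
      (Finset.univ.filter (fun d => ¬ m.face.SameCycle o d)).card = 4 * N + 2 * P := by
    rw [Finset.card_filter_add_card_filter_not, Finset.card_univ, ← Nat.card_eq_fintype_card, h3]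
  have h8 : (Finset.univ.filter (fun d => ¬ m.face.SameCycle o d)).card = 4 * N := by omega
  rw [h6, h8] at h4
  have hP' : (P : ℚ) ≠ 0 := by
    have : 0 < P := hP
    exact_mod_cast this.ne'
  have h9 : (Nat.card m.Face : ℚ) = N + 1 := by
    rw [h4]
    push_cast
    field_simp
    ring
  exact_mod_cast h9

theorem verts_of_quad {D : Type} [Finite D] (m : RMap D) (o : D) (N P : ℕ) (hP : 1 ≤ P)
    (h : m.IsQuad o N P) : Nat.card m.Vert = N + P + 1 := by
  have h1 := faces_of_deg m o N P hP h.outer h.inner h.card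
  have h2 := h.planar.2.2
  rw [h1, h.card] at h2
  omega

open Classical in
theorem replace_core (hA4 : ST_A04) (hA5 : ST_A05) (hA6 : ST_A06) {D D' : Type} [Finite D]
    [Finite D'] (m : RMap D) (o : D) (N P n p : ℕ) (hP : 1 ≤ P) (hp : 1 ≤ p)
    (hq : m.IsQuad o N P) (ρ : Equiv.Perm D) (hρ : IsRet m.rot (outer m o) ρ)
    (m' m'' : RMap D') (o' o'' : D') (hq' : m'.IsQuad o' n p) (hq'' : m''.IsQuad o'' n p)
    (hs'' : m''.Simple o'') (j j'' : D' → D) (hj : Function.Injective j)
    (hj'' : Function.Injective j'') (hr : Set.range j'' = Set.range j)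
    (h1 : ∀ d, j (m'.rot d) = (cut m ρ).rot (j d)) (h2 : ∀ d, j (m'.opp d) = m.opp (j d))
    (ho : j o' = o) (hface : ∀ i : ℕ, j'' ((m''.face ^ i) o'') = j ((m'.face ^ i) o')) :
    ∃ mn : RMap D, mn.IsQuad o N P ∧ IsRet mn.rot (outer mn o) ρ ∧
      (∀ d, j'' (m''.rot d) = (cut mn ρ).rot (j'' d)) ∧ (∀ d, j'' (m''.opp d) = mn.opp (j'' d)) ∧
      (∀ x ∉ Set.range j'', (cut mn ρ).rot x = (cut m ρ).rot x) ∧
      (∀ x ∉ Set.range j'', mn.opp x = m.opp x) := by
  have instD := Fintype.ofFinite D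
  have instD' := Fintype.ofFinite D'
  set B := outer m o with hB
  set sh := (cut m ρ).rot with hsh
  have hshe : ∀ x, ρ (sh x) = m.rot x := by
    intro x
    rw [hsh]
    simp [cut]
  obtain ⟨βr, hβr1, hβr2⟩ := repl_perm sh j j'' hj hj'' hr m'.rot m''.rot h1
  obtain ⟨βo, hβo1, hβo2⟩ := repl_perm m.opp j j'' hj hj'' hr m'.opp m''.opp h2
  -- closedness
  have Tsh : ∀ x ∈ Set.range j'', sh x ∈ Set.range j'' := by
    rw [hr]
    rintro _ ⟨d, rfl⟩
    exact ⟨m'.rot d, h1 d⟩
  have Topp : ∀ x ∈ Set.range j'', m.opp x ∈ Set.range j'' := by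
    rw [hr]
    rintro _ ⟨d, rfl⟩
    exact ⟨m'.opp d, h2 d⟩
  have Tsh' := compl_closed sh _ Tsh
  have Topp' := compl_closed m.opp _ Topp
  have hcA4 := hA4 D m.rot ρ B hρ
  obtain ⟨hA61, hA62⟩ := hA6 D m o N P ρ hP hq hρ
  have hoB : o ∈ B := Equiv.Perm.SameCycle.refl _ _
  obtain ⟨-, -, hout, -⟩ := hA62 D' m' j o' hj h1 h2 hq'.planar.2.1 (by rw [ho]; exact hoB)
  have hρ1 : ∀ x ∉ B, ρ x = x := hρ.1
  have hρ2 : ∀ x ∈ B, ρ x ∈ B := fun x hx => (hρ.2 x hx).1
  -- the new map
  have hoo : ∀ d, βo (βo d) = d := by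
    intro d
    by_cases hd : d ∈ Set.range j''
    · obtain ⟨e, rfl⟩ := hd
      rw [hβo1, hβo1, m''.opp_opp]
    · rw [hβo2 d hd, hβo2 _ (Topp' d hd), m.opp_opp]
  have hon : ∀ d, βo d ≠ d := by
    intro d
    by_cases hd : d ∈ Set.range j''
    · obtain ⟨e, rfl⟩ := hd
      rw [hβo1]
      exact fun h => m''.opp_ne e (hj'' h)
    · rw [hβo2 d hd]
      exact m.opp_ne d
  let mn : RMap D := { rot := ρ * βr, opp := βo, opp_opp := hoo, opp_ne := hon }
  have hmr : ∀ x, mn.rot x = ρ (βr x) := fun x => rfl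
  have hmo : ∀ x, mn.opp x = βo x := fun x => rfl
  have hcut : ∀ x, (cut mn ρ).rot x = βr x := by
    intro x
    show (ρ⁻¹ * (ρ * βr)) x = βr x
    rw [inv_mul_cancel_left]
  -- the face permutation of the new map
  have fn_in : ∀ e, mn.face (j'' e) = ρ (j'' (m''.face e)) := by
    intro e
    rw [face_apply, hmr, hmo, hβo1, hβr1, ← face_apply]
  have fn_out : ∀ x ∉ Set.range j'', mn.face x = m.face x := by
    intro x hx
    rw [face_apply, hmr, hmo, hβo2 x hx, hβr2 _ (Topp' x hx), hshe, ← face_apply]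
  have fo_in : ∀ e, m.face (j e) = ρ (j (m'.face e)) := by
    intro e
    rw [face_apply, ← h2, ← hshe, ← h1, ← face_apply]
  have houtpow : ∀ i : ℕ, (m''.face ^ i) o'' ∈ outer m'' o'' := fun i => ⟨i, by rw [zpow_natCast]⟩
  have houtpow' : ∀ i : ℕ, (m'.face ^ i) o' ∈ outer m' o' := fun i => ⟨i, by rw [zpow_natCast]⟩
  have hout'' : ∀ e, e ∈ outer m'' o'' ↔ j'' e ∈ B := by
    intro e
    constructor
    · intro he
      obtain ⟨i, rfl⟩ := sc_exists_pow he
      rw [hface]
      exact (hout _).1 (houtpow' i)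
    · intro he
      obtain ⟨d, hd⟩ : j'' e ∈ Set.range j := by rw [← hr]; exact ⟨e, rfl⟩
      rw [← hd] at he
      obtain ⟨i, rfl⟩ := sc_exists_pow ((hout d).2 he)
      rw [← hface] at hd
      rw [← hj'' hd]
      exact houtpow i
  have fB : ∀ x ∈ B, mn.face x = m.face x := by
    intro x hx
    by_cases hx' : x ∈ Set.range j''
    · obtain ⟨e, rfl⟩ := hx'
      obtain ⟨i, rfl⟩ := sc_exists_pow ((hout'' e).2 hx)
      rw [fn_in, ← Equiv.Perm.mul_apply, ← pow_succ', hface, hface, fo_in,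
        ← Equiv.Perm.mul_apply, ← pow_succ']
    · exact fn_out x hx'
  have hBc : ∀ x ∈ B, m.face x ∈ B := fun x hx => hx.trans ⟨1, by simp⟩
  have hBc' := compl_closed m.face B hBc
  have hscB : ∀ w, mn.face.SameCycle o w ↔ m.face.SameCycle o w := fun w =>
    sc_congr_on m.face mn.face B hBc fB hoB
  have houtn : outer mn o = B := by
    ext x
    exact hscB x
  have hdego : mn.fdeg o = 2 * P := by
    rw [← hq.outer]
    exact Nat.card_congr (Equiv.subtypeEquivRight fun w => hscB w)
  -- inner faces of the part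
  have hin'' : ∀ e, e ∉ outer m'' o'' → m''.face e ∉ outer m'' o'' :=
    compl_closed m''.face (outer m'' o'') (fun x hx => hx.trans ⟨1, by simp⟩)
  have hin' : ∀ e, e ∉ outer m' o' → m'.face e ∉ outer m' o' :=
    compl_closed m'.face (outer m' o') (fun x hx => hx.trans ⟨1, by simp⟩)
  have hinner : ∀ d, ¬ mn.face.SameCycle o d → mn.fdeg d = 4 := by
    intro d hd
    have hdB : d ∉ B := fun h => hd ((hscB d).2 h)
    by_cases hdT : d ∈ Set.range j''
    · obtain ⟨e, rfl⟩ := hdT
      have he : e ∉ outer m'' o'' := fun h => hdB ((hout'' e).1 h)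
      rw [← hq''.inner e he]
      refine csize_map_on m''.face mn.face j'' hj'' {e | e ∉ outer m'' o''} hin'' ?_ he
      intro z hz
      rw [fn_in, hρ1]
      exact fun h => hin'' z hz ((hout'' _).2 h)
    · rw [← hq.inner d hdB]
      refine csize_congr_on m.face mn.face {x | x ∉ Set.range j'' ∧ x ∉ B} ?_ ?_ ⟨hdT, hdB⟩
      · rintro z ⟨hz1, hz2⟩
        refine ⟨fun hz3 => ?_, hBc' z hz2⟩
        have hz4 : m.face.SameCycle (m.face z) z := Equiv.Perm.SameCycle.symm ⟨1, by simp⟩
        have hz5 : z ∈ {x | x ∈ Set.range j'' ∧ x ∉ B} := by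
          refine sc_closed _ ?_ (⟨hz3, hBc' z hz2⟩ : m.face z ∈ {x | x ∈ Set.range j'' ∧ x ∉ B}) hz4
          rintro w ⟨hw1, hw2⟩
          refine ⟨?_, hBc' w hw2⟩
          rw [hr] at hw1
          obtain ⟨e, rfl⟩ := hw1
          have he : e ∉ outer m' o' := fun h => hw2 ((hout e).1 h)
          rw [hr, fo_in, hρ1]
          · exact ⟨_, rfl⟩
          · exact fun h => hin' e he ((hout _).2 h)
        exact hz1 hz5.1
      · rintro z ⟨hz1, hz2⟩
        exact fn_out z hz1
  -- the first return map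
  have hret : IsRet mn.rot B ρ := by
    refine hA5 D βr ρ B ?_ hρ1 hρ2
    intro x hx y hy hxy
    by_cases hxT : x ∈ Set.range j''
    · obtain ⟨e, rfl⟩ := hxT
      obtain ⟨e', he', rfl⟩ := (sc_map_on m''.rot βr j'' Set.univ (fun _ _ => trivial)
        (fun z _ => hβr1 z) (Set.mem_univ e) y).1 hxy
      rw [hs'' e e' ((hout'' e).2 hx) ((hout'' e').2 hy) (Quotient.sound he')]
    · refine hcA4.1 x hx y hy ?_
      exact (sc_congr_on sh βr {x | x ∉ Set.range j''} Tsh' hβr2 hxT).1 hxy
  -- number of vertices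
  have hcyc : Nat.card (Cyc βr) = Nat.card (Cyc sh) := by
    have e1 := cyc_sum βr
    have e2 := cyc_sum sh
    have e3 : ∀ (γ : Equiv.Perm D) (j0 : D' → D) (m0 : RMap D') (o0 : D'),
        Function.Injective j0 → Set.range j0 = Set.range j → (∀ d, γ (j0 d) = j0 (m0.rot d)) →
        m0.IsQuad o0 n p →
        ∑ d ∈ Finset.univ.filter (fun d => d ∈ Set.range j), 1 / (Nat.card {w // γ.SameCycle d w} : ℚ)
          = n + p + 1 := by
      intro γ j0 m0 o0 hj0 hr0 hγ hq0
      have e4 : Finset.univ.filter (fun d => d ∈ Set.range j) = Finset.univ.image j0 := by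
        ext d
        rw [Finset.mem_filter, Finset.mem_image, ← hr0]
        simp
      rw [e4, Finset.sum_image (fun a _ b _ h => hj0 h)]
      have e5 := cyc_sum m0.rot
      have e6 : (Nat.card (Cyc m0.rot) : ℚ) = n + p + 1 := by
        exact_mod_cast verts_of_quad m0 o0 n p hp hq0
      rw [← e6, e5]
      refine Finset.sum_congr rfl (fun d _ => ?_)
      rw [csize_map_on m0.rot γ j0 hj0 Set.univ (fun _ _ => trivial) (fun z _ => hγ z)
        (Set.mem_univ d)]
    have e7 : ∑ d ∈ Finset.univ.filter (fun d => ¬ d ∈ Set.range j),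
        1 / (Nat.card {w // βr.SameCycle d w} : ℚ) =
        ∑ d ∈ Finset.univ.filter (fun d => ¬ d ∈ Set.range j),
        1 / (Nat.card {w // sh.SameCycle d w} : ℚ) := by
      refine Finset.sum_congr rfl (fun d hd => ?_)
      rw [Finset.mem_filter, ← hr] at hd
      rw [csize_congr_on sh βr {x | x ∉ Set.range j''} Tsh' hβr2 hd.2]
    rw [← Finset.sum_filter_add_sum_filter_not Finset.univ (fun d => d ∈ Set.range j)] at e1 e2
    rw [e3 βr j'' m'' o'' hj'' hr hβr1 hq'', e7] at e1
    rw [e3 sh j m' o' hj rfl (fun d => (h1 d).symm) hq'] at e2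
    have e8 : (Nat.card (Cyc βr) : ℚ) = (Nat.card (Cyc sh) : ℚ) := by rw [e1, e2]
    exact_mod_cast e8
  have hV : Nat.card mn.Vert = Nat.card m.Vert := by
    have e1 := (hA4 D mn.rot ρ B hret).2.1
    have e2 := hcA4.2.1
    have e3 : ρ⁻¹ * mn.rot = βr := inv_mul_cancel_left ρ βr
    have e4 : ρ⁻¹ * m.rot = sh := rfl
    rw [e3] at e1
    rw [e4] at e2
    change Nat.card (Cyc mn.rot) = Nat.card (Cyc m.rot)
    omega
  have hF : Nat.card mn.Face = N + 1 := faces_of_deg mn o N P hP hdego hinner hq.card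
  have hF' : Nat.card m.Face = N + 1 := faces_of_deg m o N P hP hq.outer hq.inner hq.card
  -- connectedness
  have hconn : mn.Conn := by
    have r0 : ∀ {z w}, Relation.ReflTransGen (fun a b => b = mn.rot a ∨ b = mn.opp a) z w →
        Relation.ReflTransGen (fun a b => b = mn.rot a ∨ b = mn.opp a) w z :=
      fun h => rtg_symm mn.rot mn.opp h
    have r2 : ∀ {z w}, mn.rot.SameCycle z w →
        Relation.ReflTransGen (fun a b => b = mn.rot a ∨ b = mn.opp a) z w := by
      intro z w h
      obtain ⟨i, rfl⟩ := sc_exists_pow h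
      exact (rtg_pow mn.rot mn.opp i z).1
    have r3 : ∀ z, Relation.ReflTransGen (fun a b => b = mn.rot a ∨ b = mn.opp a) z (ρ z) := by
      intro z
      by_cases hz : z ∈ B
      · obtain ⟨-, k, -, hk, -⟩ := hret.2 z hz
        exact r2 ⟨k, by rw [zpow_natCast, hk]⟩
      · rw [hρ1 z hz]
    have r4 : ∀ z, Relation.ReflTransGen (fun a b => b = mn.rot a ∨ b = mn.opp a) z (βr z) := by
      intro z
      have a1 : Relation.ReflTransGen (fun a b => b = mn.rot a ∨ b = mn.opp a) (βr z)
          (mn.rot z) := r3 (βr z)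
      exact Relation.ReflTransGen.trans (Relation.ReflTransGen.single (Or.inl rfl)) (r0 a1)
    have r5 : ∀ e e', Relation.ReflTransGen (fun a b => b = mn.rot a ∨ b = mn.opp a)
        (j'' e) (j'' e') := by
      intro e e'
      have h := hq''.planar.2.1 e e'
      induction h with
      | refl => exact Relation.ReflTransGen.refl
      | tail _ hbc ih =>
        rename_i b c _
        refine ih.trans ?_
        rcases hbc with rfl | rfl
        · rw [← hβr1]; exact r4 _
        · rw [← hβo1]; exact Relation.ReflTransGen.single (Or.inr rfl)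
    have r6 : ∀ z, Relation.ReflTransGen (fun a b => b = mn.rot a ∨ b = mn.opp a) z (m.opp z) := by
      intro z
      by_cases hz : z ∈ Set.range j''
      · obtain ⟨e', he'⟩ := Topp z hz
        obtain ⟨e, rfl⟩ := hz
        rw [← he']
        exact r5 e e'
      · rw [← hβo2 z hz]
        exact Relation.ReflTransGen.single (Or.inr rfl)
    have r7 : ∀ z, Relation.ReflTransGen (fun a b => b = mn.rot a ∨ b = mn.opp a) z (m.rot z) := by
      intro z
      rw [← hshe]
      refine Relation.ReflTransGen.trans ?_ (r3 _)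
      by_cases hz : z ∈ Set.range j''
      · obtain ⟨e', he'⟩ := Tsh z hz
        obtain ⟨e, rfl⟩ := hz
        rw [← he']
        exact r5 e e'
      · rw [← hβr2 z hz]
        exact r4 z
    intro d d'
    have h := hq.planar.2.1 d d'
    induction h with
    | refl => exact Relation.ReflTransGen.refl
    | tail _ hbc ih =>
      rename_i b c _
      refine ih.trans ?_
      rcases hbc with rfl | rfl
      · exact r7 _
      · exact r6 _
  refine ⟨mn, ⟨⟨hq.planar.1, hconn, ?_⟩, hdego, hinner, hq.card⟩, ?_, ?_, ?_, ?_, ?_⟩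
  · have := hq.planar.2.2
    rw [hV, hF, ← hF']
    exact this
  · rw [houtn]
    exact hret
  · intro d
    rw [hcut, hβr1]
  · intro d
    exact (hβo1 d).symm
  · intro x hx
    rw [hcut, hβr2 x hx]
  · intro x hx
    exact hβo2 x hx

end

end QR
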