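import Pool.Agent.Helper98.QR.StmtsA

/-!
# Cycles of `swap x y * σ`
-/

namespace QR

noncomputable section

open Filter Topology

variable {S : Type}

theorem sc_exists_pow [Finite S] {σ : Equiv.Perm S} {x y : S} (h : σ.SameCycle x y) :
    ∃ n : ℕ, (σ ^ n) x = y := by
  classical
  obtain ⟨i, hi⟩ := h
  have := Fintype.ofFinite S
  have hpos : 0 < orderOf σ := orderOf_pos σ
  refine ⟨(i % (orderOf σ : ℤ)).toNat, ?_⟩
  rw [← hi]
  have h1 : 0 ≤ i % (orderOf σ : ℤ) := Int.emod_nonneg _ (by exact_mod_cast hpos.ne')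
  have h2 : σ ^ (i % (orderOf σ : ℤ)).toNat = σ ^ i := by
    rw [← zpow_natCast, Int.toNat_of_nonneg h1, zpow_mod_orderOf]
  rw [h2]

/-- an equivalence relation which contains the steps contains the cycles -/
theorem sc_le_of_step {σ' : Equiv.Perm S} (r : S → S → Prop) (hr : Equivalence r)
    (h : ∀ z, r z (σ' z)) {z w : S} (hzw : σ'.SameCycle z w) : r z w := by
  obtain ⟨i, rfl⟩ := hzw
  induction i using Int.induction_on with
  | zero => simpa using hr.refl z
  | succ i ih =>
    rw [add_comm, zpow_add, zpow_one, Equiv.Perm.mul_apply]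
    exact hr.trans ih (h _)
  | pred i ih =>
    refine hr.trans ih (hr.symm ?_)
    have h1 := h ((σ' ^ (-(i : ℤ) - 1)) z)
    have h2 : σ' ((σ' ^ (-(i : ℤ) - 1)) z) = (σ' ^ (-(i : ℤ))) z := by
      rw [← Equiv.Perm.mul_apply, ← zpow_one_add]
      congr 2
      ring
    rwa [h2] at h1

theorem sc_closed [Finite S] {σ' : Equiv.Perm S} (T : Set S) (hT : ∀ z ∈ T, σ' z ∈ T) {z w : S}
    (hz : z ∈ T) (h : σ'.SameCycle z w) : w ∈ T := by
  obtain ⟨n, rfl⟩ := sc_exists_pow h
  clear h
  induction n with
  | zero => simpa using hz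
  | succ n ih =>
    rw [pow_succ', Equiv.Perm.mul_apply]
    exact hT _ ih

open Classical in
/-- (d) -/
theorem sw_le (σ : Equiv.Perm S) {x y : S} (hxy : σ.SameCycle x y) {z w : S}
    (h : (Equiv.swap x y * σ).SameCycle z w) : σ.SameCycle z w := by
  refine sc_le_of_step (σ' := Equiv.swap x y * σ) (fun a b => σ.SameCycle a b)
    ⟨fun a => Equiv.Perm.SameCycle.refl σ a, fun h => h.symm, fun h h' => h.trans h'⟩ ?_ h
  intro z
  have h0 : σ.SameCycle z (σ z) := ⟨1, by simp⟩
  rw [Equiv.Perm.mul_apply]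
  by_cases h1 : σ z = x
  · rw [h1, Equiv.swap_apply_left]
    rw [h1] at h0
    exact h0.trans hxy
  · by_cases h2 : σ z = y
    · rw [h2, Equiv.swap_apply_right]
      rw [h2] at h0
      exact h0.trans hxy.symm
    · rw [Equiv.swap_apply_of_ne_of_ne h1 h2]
      exact h0

open Classical in
/-- (b) -/
theorem sw_or [Finite S] (σ : Equiv.Perm S) {x y : S} {z : S} (h : σ.SameCycle x z) :
    (Equiv.swap x y * σ).SameCycle x z ∨ (Equiv.swap x y * σ).SameCycle y z := by
  obtain ⟨n, rfl⟩ := sc_exists_pow h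
  clear h
  induction n with
  | zero => left; simpa using Equiv.Perm.SameCycle.refl _ x
  | succ n ih =>
    rw [pow_succ', Equiv.Perm.mul_apply]
    set w := (σ ^ n) x with hw
    by_cases h1 : σ w = x
    · left; rw [h1]
    · by_cases h2 : σ w = y
      · right; rw [h2]
      · have e : (Equiv.swap x y * σ) w = σ w := by
          rw [Equiv.Perm.mul_apply, Equiv.swap_apply_of_ne_of_ne h1 h2]
        have h3 : (Equiv.swap x y * σ).SameCycle w (σ w) := ⟨1, by rw [zpow_one, e]⟩
        rcases ih with ih | ih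
        · left; exact ih.trans h3
        · right; exact ih.trans h3

open Classical in
/-- (c) -/
theorem sw_out [Finite S] (σ : Equiv.Perm S) {x y : S} (hxy : σ.SameCycle x y) {z w : S}
    (hz : ¬ σ.SameCycle x z) (h : σ.SameCycle z w) : (Equiv.swap x y * σ).SameCycle z w := by
  obtain ⟨n, rfl⟩ := sc_exists_pow h
  clear h
  induction n with
  | zero => simpa using Equiv.Perm.SameCycle.refl _ z
  | succ n ih =>
    rw [pow_succ', Equiv.Perm.mul_apply]
    refine ih.trans ⟨1, ?_⟩
    rw [zpow_one, Equiv.Perm.mul_apply, Equiv.swap_apply_of_ne_of_ne]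
    · intro h
      refine hz (Equiv.Perm.SameCycle.symm ⟨n + 1, ?_⟩)
      rw [← h, ← Equiv.Perm.mul_apply, ← pow_succ']
      rfl
    · intro h
      refine hz (hxy.trans (Equiv.Perm.SameCycle.symm ⟨n + 1, ?_⟩))
      rw [← h, ← Equiv.Perm.mul_apply, ← pow_succ']
      rfl

open Classical in
/-- (a) -/
theorem sw_arc [Finite S] (σ : Equiv.Perm S) {x y : S} (_hne : x ≠ y) (k : ℕ) (hk : 1 ≤ k)
    (hy : (σ ^ k) x = y) (hmin : ∀ i, 1 ≤ i → i < k → (σ ^ i) x ≠ y) {z : S}
    (h : (Equiv.swap x y * σ).SameCycle x z) : ∃ i < k, z = (σ ^ i) x := by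
  have hx : ∀ i, 1 ≤ i → i < k → (σ ^ i) x ≠ x := by
    intro i h1 h2 h3
    refine hmin (k - i) (by omega) (by omega) ?_
    rw [← hy]
    conv_rhs => rw [show k = (k - i) + i by omega, pow_add, Equiv.Perm.mul_apply, h3]
  refine sc_closed {z | ∃ i < k, z = (σ ^ i) x} ?_ ⟨0, by omega, by simp⟩ h
  rintro z ⟨i, hi, rfl⟩
  have e0 : (Equiv.swap x y * σ) ((σ ^ i) x) = Equiv.swap x y ((σ ^ (i + 1)) x) := by
    rw [pow_succ', Equiv.Perm.mul_apply, Equiv.Perm.mul_apply]
  rw [e0]
  by_cases h1 : i + 1 = k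
  · rw [h1, hy, Equiv.swap_apply_right]
    exact ⟨0, by omega, by simp⟩
  · rw [Equiv.swap_apply_of_ne_of_ne (hx _ (by omega) (by omega)) (hmin _ (by omega) (by omega))]
    exact ⟨i + 1, by omega, rfl⟩

theorem sc_first [Finite S] (σ : Equiv.Perm S) {x y : S} (hne : x ≠ y) (h : σ.SameCycle x y) :
    ∃ k : ℕ, 1 ≤ k ∧ (σ ^ k) x = y ∧ ∀ i, 1 ≤ i → i < k → (σ ^ i) x ≠ y := by
  classical
  have hex : ∃ n : ℕ, (σ ^ n) x = y := sc_exists_pow h
  refine ⟨Nat.find hex, ?_, Nat.find_spec hex, fun i _ hi => Nat.find_min hex hi⟩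
  rw [Nat.one_le_iff_ne_zero]
  intro h0
  have := Nat.find_spec hex
  rw [h0] at this
  exact hne (by simpa using this)

open Classical in
theorem sw_not [Finite S] (σ : Equiv.Perm S) {x y : S} (hne : x ≠ y) (hxy : σ.SameCycle x y) :
    ¬ (Equiv.swap x y * σ).SameCycle x y := by
  intro h
  obtain ⟨k, hk, hy, hmin⟩ := sc_first σ hne hxy
  obtain ⟨i, hi, h1⟩ := sw_arc σ hne k hk hy hmin h
  by_cases h0 : i = 0
  · subst h0
    exact hne (by simpa using h1.symm)
  · exact hmin i (by omega) hi h1.symm

open Classical in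
/-- splitting a cycle -/
theorem card_cyc_swap [Finite S] (σ : Equiv.Perm S) {x y : S} (hne : x ≠ y)
    (hxy : σ.SameCycle x y) :
    Nat.card (Cyc (Equiv.swap x y * σ)) = Nat.card (Cyc σ) + 1 := by
  have := Fintype.ofFinite S
  set σ' := Equiv.swap x y * σ with hσ'
  have hF : ∀ z w, σ'.SameCycle z w → (if σ'.SameCycle x z then none else
      some (Quotient.mk (Equiv.Perm.SameCycle.setoid σ) z) : Option (Cyc σ)) =
      (if σ'.SameCycle x w then none else some (Quotient.mk (Equiv.Perm.SameCycle.setoid σ) w)) := by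
    intro z w h
    by_cases h1 : σ'.SameCycle x z
    · rw [if_pos h1, if_pos (h1.trans h)]
    · rw [if_neg h1, if_neg (fun h2 => h1 (h2.trans h.symm))]
      congr 1
      exact Quotient.sound (sw_le σ hxy h)
  let F : Cyc σ' → Option (Cyc σ) := Quotient.lift (fun z => if σ'.SameCycle x z then none else
      some (Quotient.mk (Equiv.Perm.SameCycle.setoid σ) z)) hF
  have hFm : ∀ z, F (Quotient.mk _ z) = if σ'.SameCycle x z then none else
      some (Quotient.mk (Equiv.Perm.SameCycle.setoid σ) z) := fun z => rfl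
  have hbij : Function.Bijective F := by
    constructor
    · intro a b
      induction a using Quotient.inductionOn with
      | _ a =>
      induction b using Quotient.inductionOn with
      | _ b =>
      intro h
      rw [hFm, hFm] at h
      apply Quotient.sound
      show σ'.SameCycle a b
      by_cases h1 : σ'.SameCycle x a
      · rw [if_pos h1] at h
        by_cases h2 : σ'.SameCycle x b
        · exact h1.symm.trans h2
        · rw [if_neg h2] at h
          simp at h
      · rw [if_neg h1] at h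
        by_cases h2 : σ'.SameCycle x b
        · rw [if_pos h2] at h
          simp at h
        · rw [if_neg h2] at h
          have h3 : σ.SameCycle a b := Quotient.exact (Option.some.inj h)
          by_cases h4 : σ.SameCycle x a
          · have h5 := (sw_or (y := y) σ h4).resolve_left h1
            have h6 := (sw_or (y := y) σ (h4.trans h3)).resolve_left h2
            exact h5.symm.trans h6
          · exact sw_out σ hxy h4 h3
    · intro b
      cases b with
      | none => exact ⟨Quotient.mk _ x, by rw [hFm, if_pos (Equiv.Perm.SameCycle.refl _ _)]⟩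
      | some b =>
        induction b using Quotient.inductionOn with
        | _ z =>
        by_cases h : σ.SameCycle x z
        · refine ⟨Quotient.mk _ y, ?_⟩
          rw [hFm, if_neg (sw_not σ hne hxy)]
          congr 1
          exact Quotient.sound (hxy.symm.trans h)
        · refine ⟨Quotient.mk _ z, ?_⟩
          rw [hFm, if_neg (fun h' => h (sw_le σ hxy h'))]
  rw [Nat.card_congr (Equiv.ofBijective F hbij), Finite.card_option]

end

end QR
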